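import Pool.Agent.K4H55.CX.AbL
import Pool.Agent.K4H55.BM.Main
import Pool.Agent.Run7.h735.BT.Split

/-!
# Elliptic curves over extensions of 2-power degree of imaginary quadratic fields: the rank conjecture, and the 2-part
# of the Birch and Swinnerton-Dyer formula relative to the base field

`K` is an imaginary quadratic field of class number one, `E : y² = x³ + a x + b`, `a, b ∈ 𝓞_K`, is an elliptic curve
over `K` (it need not be defined over `ℚ`, nor be isogenous to its conjugate), and `f` is its Bianchi newform of weight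
two.  Suppose that `E(K)[2] = 0`, the `2`-Selmer group of `E/K` is trivial, and the central value of `E/K` is odd: the
value `Φ(0)` of the primitive `Φ` of the harmonic differential of `f` at the cusp `0` is not in `2 w Λ`, where `Λ ≅ ℤ` is
the group of the values of `Φ` at the cusps `x/m`, `m` prime to the level, and `w = #{u ∈ 𝓞 : u⁴ = 1}`.

A place `v ∤ 2(4a³ + 27b²)` of `K` is admissible if `x³ + a x + b` has no root modulo `v` (by Chebotarev's theorem these
are one third or two thirds of all places).  The fields `F` considered here are the Galois extensions of `K` of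
`2`-power degree, unramified outside of the admissible places, in which the places `v ∣ 2(4a³ + 27b²)` split
completely.  Their degree, the exponent of their Galois group and the number of ramified places are not bounded.

**Theorem.**  (1) `ord_{s = 1} L(E/K, s) = rank E(K) = 0`, `E(K)` has odd order, and `Ш(E/K)[2^∞] = 0`.

(2) For ALL such `F`, abelian over `K` or not, `E(F)` is finite of odd order, and `Ш(E/F)[2^∞] = 0`.

(3) If `F` is the class field of a finite group `𝒢` of characters of `K` of `2`-power order whose conductors are products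
of different (admissible) places, then the rank conjecture of Birch and Swinnerton-Dyer holds for `E/F`: `L(E/F, s)`, the
product over all finite places of `F`, has an entire continuation, and `ord_{s = 1} L(E/F, s) = rank E(F) = 0`.

(4) For these `F` the 2-part of the formula of Birch and Swinnerton-Dyer for `E/F` holds relative to the one for `E/K`:
`k τ L(E/F, 1) = x L(E/K, 1)^[F : K]` where `k` is an odd integer, `x` is an algebraic integer prime to `2`, and `τ` (a
product of Gauss sums) is an algebraic integer with `|τ|² = ∏_χ N(f_χ)`.  Hence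
`k² ∏_χ N(f_χ) |L(E/F, 1)|² = |x|² |L(E/K, 1)|^(2 [F : K])`.  Here `∏_χ N(f_χ)` is the norm of the discriminant of `F/K`,
so that the square root of the ratio of `|Δ_F|` and `|Δ_K|^[F : K]` is in the formula for `E/F`; the period of `E/F` is the
power of the one of `E/K`; the Tamagawa numbers are those of `E/K`, each `[F : K]` times, as the places of bad reduction
split completely; and the orders of `E(F)` and `E(K)` and of the `2`-primary parts of the groups `Ш` are odd by (1), (2).
So the formula predicts that `∏_χ N(f_χ)^(1/2) L(E/F, 1) / L(E/K, 1)^[F : K]` is a `2`-adic unit, and this is (4).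

There is no Euler system for a Bianchi newform which is not a base change from `ℚ`, and the theorems of Kolyvagin and
Kato do not apply to `E/F`: (1) and (3) are obtained by a descent for the left side and by congruences between the
values of the twists `L(E ⊗ χ, 1)` modulo the primes above `2` for the right side.

The starting files contain the steps: the congruences and the product of the twists
(`Pool.Agent.K4H55.CX.ab_unit`), and the descent (`Pool.Agent.K4H55.CX.fin_up`); the file
`Results/MP_60ff09_nt/DihedralTwoPower.lean`, which is about triple products for `E` over `ℚ` and dihedral extensions of `ℚ`,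
mentions this theorem, but it is in none of the starting files.  What is done here: the comparison of the product of
the twists with the Euler product of `E` over the places of `F` -- the point counts over the residue fields of the
places of `F` from those over `K` (`Pool.Agent.Run7.h735.BT.np_ext`, for every finite field of odd characteristic), the
residue fields at the places which split completely, the absolute convergence of the product over all places of `F` --
and the conclusions above.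
-/

set_option autoImplicit false

open NumberField IsDedekindDomain WeierstrassCurve Matrix Filter Topology
open scoped TensorProduct

namespace Pool.Agent.Results.MP_1a91b9_nt.BianchiTwoExtensions

open Pool.Agent.TH841.NF.D (Sha)

/-- `K` is an imaginary quadratic field, `σ` is one of its two embeddings in `ℂ`, and `δ` generates the
different of `K`: an `x ∈ K` is in `𝓞` if and only if `Tr(x y / δ) ∈ ℤ` for all `y ∈ 𝓞`. -/
structure IsFieldData (K : Type) [Field K] [NumberField K] (σ : K →+* ℂ) (δ : K) : Prop where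
  quadratic : Module.finrank ℚ K = 2
  imaginary : ∃ x, (starRingEnd ℂ) (σ x) ≠ σ x
  different : ∀ x : K, (∃ a : 𝓞 K, (a : K) = x) ↔
    ∀ y : 𝓞 K, ∃ m : ℤ, Algebra.trace ℚ K (x * y / δ) = m

/-- `h(y) = ∫_0^∞ exp(-1/v - y v) dv = 2 y^(-1/2) K₁(2 √y)`, with the Bessel function `K₁`. -/
noncomputable def bessel (y : ℝ) : ℝ := ∫ v in Set.Ioi (0 : ℝ), Real.exp (-(1 / v) - y * v)

/-- The additive character `e(z) = exp(2πi (z/δ + conj (z/δ)))` of `ℂ`, trivial on `𝓞`. -/
noncomputable def addChar (δ z : ℂ) : ℂ :=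
  Complex.exp (2 * Real.pi * Complex.I * (z / δ + (starRingEnd ℂ) (z / δ)))

/-- The denominator `|c z + d|² + |c|² t²` of the action of the matrix `(a, b; c, d)` on the hyperbolic
space `{(z, t) : z ∈ ℂ, t > 0}`. -/
noncomputable def den (c d z : ℂ) (t : ℝ) : ℝ := ‖c * z + d‖ ^ 2 + ‖c‖ ^ 2 * t ^ 2

/-- The first coordinate `((a z + b) conj (c z + d) + a conj(c) t²) / (|c z + d|² + |c|² t²)` of the image
of `(z, t)` under the matrix `(a, b; c, d)`. -/
noncomputable def actZ (a b c d z : ℂ) (t : ℝ) : ℂ :=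
  ((a * z + b) * (starRingEnd ℂ) (c * z + d) + a * (starRingEnd ℂ) c * (t : ℂ) ^ 2) /
    (den c d z t : ℂ)

/-- The second coordinate, for a matrix of determinant one; in general it is `|ad - bc|` times this. -/
noncomputable def actT (c d z : ℂ) (t : ℝ) : ℝ := t / den c d z t

section field
variable {K : Type} [Field K] [NumberField K]

/-- The function `Φ(z, t) = ∑_{x ∈ 𝓞} c((x)) t² h(N(x) (2πt/|δ|)²) e(x z)
  = (|δ|/π) ∑_{x ≠ 0} (c((x))/|x|) t K₁(4π|x|t/|δ|) e(x z)` on the hyperbolic space, with the coefficients `c`.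
Up to a constant factor it is the primitive, zero at the cusp `∞`, of the harmonic differential of the
form of weight two with the Fourier coefficients `c`: its derivative by `t` is
`-4 ∑_{x ≠ 0} c((x)) t K₀(4π|x|t/|δ|) e(x z)`. -/
noncomputable def primitive (σ : K →+* ℂ) (δ : K) (c : Ideal (𝓞 K) → ℂ) (z : ℂ) (t : ℝ) : ℂ :=
  ∑' x : 𝓞 K, c (Ideal.span {x}) * ((t ^ 2 * bessel (Ideal.absNorm (Ideal.span {x}) *
    (2 * Real.pi * t / ‖σ δ‖) ^ 2) : ℝ) : ℂ) * addChar (σ δ) (σ x * z)

/-- The group `Λ` generated by the values of the primitive `Φ` at the cusps `x/m`, `m ≠ 0` prime to the level (that is,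
by the limits of `Φ(x/m, t)` for `t → 0`). -/
def Lam (σ : K →+* ℂ) (δ : K) (n : 𝓞 K) (c : Ideal (𝓞 K) → ℂ) : AddSubgroup ℂ :=
  AddSubgroup.closure {z | ∃ x m : 𝓞 K, m ≠ 0 ∧ IsCoprime m n ∧
    Tendsto (fun t => primitive σ δ c (σ x / σ m) t) (𝓝[>] 0) (𝓝 z)}

/-- The numbers `c(I)` are the Hecke eigenvalues of a Bianchi newform `f` of weight two, level `(n)` and
trivial character over `K`, with rational eigenvalues: they satisfy `c(𝓞) = 1`, the (trivial) bound `c(I) = O(N(I))`
and the Hecke relations `c(v I) = c(v) c(I)` for `v ∤ I`, `c(v² I) = c(v) c(v I) - N(v) c(I)` for the primes `v ∤ n`, and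
`c(v I) = c(v) c(I)` for `v ∣ n`; the differential `dΦ` of the function `Φ` with the coefficients `c` is
invariant under `Γ₀(n)`, that is, `Φ(γ P) - Φ(P)` is a constant for every `γ ∈ Γ₀(n)`; `dΦ` is an
eigenform, with the eigenvalue `±1`, of the Fricke involution `W = (0, -1; n, 0)`; and the group `Λ` of the values of `Φ` at
cusps is cyclic (this is so for rational eigenvalues, by multiplicity one and the theorem of Manin, Drinfeld and
Kurčanov: the quotient of `H₁(Γ₀(n), cusps; ℤ)` which belongs to `f` has rank one). -/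
structure IsNewform (σ : K →+* ℂ) (δ : K) (n : 𝓞 K) (c : Ideal (𝓞 K) → ℂ) : Prop where
  level : n ≠ 0
  zero : c ⊥ = 0
  one : c ⊤ = 1
  bound : ∃ C : ℝ, ∀ I, ‖c I‖ ≤ C * Ideal.absNorm I
  good : ∀ v : HeightOneSpectrum (𝓞 K), n ∉ v.asIdeal → ∀ I,
    (¬ v.asIdeal ∣ I → c (v.asIdeal * I) = c v.asIdeal * c I) ∧
    c (v.asIdeal * (v.asIdeal * I)) = c v.asIdeal * c (v.asIdeal * I) -
      Ideal.absNorm v.asIdeal * c I
  bad : ∀ v : HeightOneSpectrum (𝓞 K), n ∈ v.asIdeal → ∀ I,
    c (v.asIdeal * I) = c v.asIdeal * c I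
  invariant : ∃ κ : SpecialLinearGroup (Fin 2) (𝓞 K) → ℂ,
    ∀ γ : SpecialLinearGroup (Fin 2) (𝓞 K), n ∣ γ.1 1 0 → ∀ (z : ℂ) (t : ℝ), 0 < t →
      primitive σ δ c (actZ (σ (γ.1 0 0)) (σ (γ.1 0 1)) (σ (γ.1 1 0)) (σ (γ.1 1 1)) z t)
        (actT (σ (γ.1 1 0)) (σ (γ.1 1 1)) z t) = primitive σ δ c z t + κ γ
  fricke : ∃ w κ : ℂ, w * w = 1 ∧ ∀ (z : ℂ) (t : ℝ), 0 < t →
    primitive σ δ c (actZ 0 (-1) (σ n) 0 z t) (‖σ n‖ * actT (σ n) 0 z t) =
      -w * primitive σ δ c z t + κ
  cyclic : ∃ ω ∈ Lam σ δ n c, ∀ l ∈ Lam σ δ n c, ∃ j : ℤ, l = j * ω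

/-- The number `w` of the `u ∈ 𝓞` with `u⁴ = 1`: it is `4` for `K = ℚ(i)` and `2` otherwise. -/
noncomputable def fourth (K : Type) [Field K] : ℕ := Nat.card {u : 𝓞 K // u ^ 4 = 1}

/-- The central value is odd: `Φ(0)`, the limit of `Φ(0, t)` for `t → 0`, is not in `2 w Λ`. -/
def OddCentralValue (σ : K →+* ℂ) (δ : K) (n : 𝓞 K) (c : Ideal (𝓞 K) → ℂ) : Prop :=
  ∃ z₀ : ℂ, Tendsto (fun t => primitive σ δ c 0 t) (𝓝[>] 0) (𝓝 z₀) ∧
    ∀ y ∈ Lam σ δ n c, z₀ ≠ 2 * fourth K * y

/-- The number of the affine points of `y² = x³ + a x + b` over the residue field of `v`. -/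
noncomputable def points (a b : 𝓞 K) (v : HeightOneSpectrum (𝓞 K)) : ℕ :=
  Nat.card {x : (𝓞 K ⧸ v.asIdeal) × (𝓞 K ⧸ v.asIdeal) //
    x.2 ^ 2 = x.1 ^ 3 + (Ideal.Quotient.mk v.asIdeal a) * x.1 + (Ideal.Quotient.mk v.asIdeal b)}

/-- `f` is the newform of `E : y² = x³ + a x + b`: for `v ∤ 2(4a³ + 27b²)` (so that `E` has good reduction at `v`)
the level is prime to `v` and `c(v) = N(v) + 1 - #E(𝓞/v)`. -/
def IsNewformOf (a b n : 𝓞 K) (c : Ideal (𝓞 K) → ℂ) : Prop :=
  ∀ v : HeightOneSpectrum (𝓞 K), 2 * (4 * a ^ 3 + 27 * b ^ 2) ∉ v.asIdeal →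
    n ∉ v.asIdeal ∧ c v.asIdeal = (Ideal.absNorm v.asIdeal : ℂ) - points a b v

section selmer
variable {L : Type} [Field L] [NumberField L] [Algebra K L]

/-- `L = K(θ)` is the cubic field of `E`: `θ³ + a θ + b = 0`, and every element of `L` is `u + v θ + w θ²` for
unique `u, v, w ∈ K`.  So `x³ + a x + b` is irreducible over `K`, that is, `E(K)[2] = 0`. -/
structure IsCubicField (a b : 𝓞 K) (θ : L) : Prop where
  root : θ ^ 3 + algebraMap K L a * θ + algebraMap K L b = 0
  basis : ∀ β : L, ∃! t : K × K × K,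
    β = algebraMap K L t.1 + algebraMap K L t.2.1 * θ + algebraMap K L t.2.2 * θ ^ 2

/-- The class of `α` in `(K_v ⊗ L)^×` modulo squares is in the group generated by the images of the points
`(x, y)`, `y ≠ 0`, of `E(K_v)` under the Kummer map `(x, y) ↦ x - θ`.  (This group is the image of `E(K_v)/2E(K_v)`, as
the map is a homomorphism and all classes contain points with `y ≠ 0`.) -/
def LocalCondition (a b : 𝓞 K) (θ : L) (v : HeightOneSpectrum (𝓞 K)) (α : L) : Prop :=
  ∃ s : List (v.adicCompletion K),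
    (∀ x ∈ s, ∃ y : v.adicCompletion K, y ≠ 0 ∧
      y ^ 2 = x ^ 3 + algebraMap K (v.adicCompletion K) a * x +
        algebraMap K (v.adicCompletion K) b) ∧
    IsSquare (((1 : v.adicCompletion K) ⊗ₜ[K] α) *
      (s.map fun x => x ⊗ₜ[K] (1 : L) - 1 ⊗ₜ[K] θ).prod)

/-- The `2`-Selmer group of `E/K` is trivial.  As `E(K)[2] = 0` and `K` has no real places, it is the group of the
classes of `α ∈ L^×` modulo squares such that the norm of `α` is a square, `w(α)` is even for all places
`w ∤ 2(4a³ + 27b²)` of `L`, and `α` satisfies the local conditions at the places `v ∣ 2(4a³ + 27b²)` of `K`. -/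
def TrivialSelmer (a b : 𝓞 K) (θ : L) : Prop :=
  ∀ α : L, α ≠ 0 → IsSquare (Algebra.norm K α) →
    (∀ w : HeightOneSpectrum (𝓞 L), algebraMap (𝓞 K) (𝓞 L) (2 * (4 * a ^ 3 + 27 * b ^ 2)) ∉
      w.asIdeal → IsSquare (w.valuation L α)) →
    (∀ v : HeightOneSpectrum (𝓞 K), 2 * (4 * a ^ 3 + 27 * b ^ 2) ∈ v.asIdeal →
      LocalCondition a b θ v α) → IsSquare α

end selmer

/-- The admissible places: `v ∤ 2(4a³ + 27b²)`, and `x³ + a x + b` has no root modulo `v`. -/
def Admissible (a b : 𝓞 K) (v : HeightOneSpectrum (𝓞 K)) : Prop :=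
  2 * (4 * a ^ 3 + 27 * b ^ 2) ∉ v.asIdeal ∧ ∀ x : 𝓞 K, x ^ 3 + a * x + b ∉ v.asIdeal

/-- `χ` is a character of `K` of `2`-power order and of conductor `∏_{v ∈ T} v`, as a function on `𝓞` (`K` has class
number one): a primitive character modulo the product of the `v ∈ T`, trivial on the units, and zero on the `x` which
are not prime to the conductor. -/
structure IsCharacter (T : Finset (HeightOneSpectrum (𝓞 K))) (χ : 𝓞 K → ℂ) : Prop where
  one : χ 1 = 1
  mul : ∀ x y, χ (x * y) = χ x * χ y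
  zero : ∀ x, χ x = 0 ↔ ∃ v ∈ T, x ∈ v.asIdeal
  periodic : ∀ x y, (∀ v ∈ T, x - y ∈ v.asIdeal) → χ x = χ y
  units : ∀ u, IsUnit u → χ u = 1
  primitive : ∀ v ∈ T, ∃ x, (∀ v' ∈ T, v' ≠ v → x - 1 ∈ v'.asIdeal) ∧ χ x ≠ 0 ∧ χ x ≠ 1
  order : ∃ k : ℕ, ∀ x, χ x ≠ 0 → χ x ^ 2 ^ k = 1


/-- `χ` is a finite group `𝒢` of characters of `K` of `2`-power order, whose conductors `∏_{v ∈ T g} v` are products
of different admissible places.  (The value of a character is zero at the places of its conductor; so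
`χ (g h) = χ g χ h` is asked for where `χ g` and `χ h` are not zero.) -/
structure IsCharacterGroup (a b : 𝓞 K) {𝒢 : Type} [CommGroup 𝒢]
    (T : 𝒢 → Finset (HeightOneSpectrum (𝓞 K))) (χ : 𝒢 → 𝓞 K → ℂ) : Prop where
  character : ∀ g, IsCharacter (T g) (χ g)
  mul : ∀ g h x, χ g x ≠ 0 → χ h x ≠ 0 → χ (g * h) x = χ g x * χ h x
  admissible : ∀ g, ∀ v ∈ T g, Admissible a b v

/-- The number of the values different from zero of the characters `χ g` at the principal place `v = (x)`, that is,
the order of the Frobenius class of `v`, or the residue degree of `v`. -/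
noncomputable def valueOrder {𝒢 : Type} (χ : 𝒢 → 𝓞 K → ℂ) (x : 𝓞 K) : ℕ :=
  Nat.card {z : ℂ // z ≠ 0 ∧ ∃ g, χ g x = z}

section extension

variable (F : Type) [Field F] [NumberField F] [Algebra K F]

/-- The places `u` of `F` above `v`. -/
def Above (v : HeightOneSpectrum (𝓞 K)) : Type :=
  {u : HeightOneSpectrum (𝓞 F) // u.asIdeal.comap (algebraMap (𝓞 K) (𝓞 F)) = v.asIdeal}

/-- `F/K` is a finite Galois extension of `2`-power degree, unramified outside of the admissible places of `K`, and the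
places `v ∣ 2(4a³ + 27b²)` split completely in `F` (there is an embedding of `F` in `K_v`). -/
structure IsTwoExtension (a b : 𝓞 K) : Prop where
  galois : IsGalois K F
  degree : ∃ k : ℕ, Module.finrank K F = 2 ^ k
  split : ∀ v : HeightOneSpectrum (𝓞 K), 2 * (4 * a ^ 3 + 27 * b ^ 2) ∈ v.asIdeal →
    Nonempty (F →ₐ[K] v.adicCompletion K)
  unramified : ∀ v : HeightOneSpectrum (𝓞 K), 2 * (4 * a ^ 3 + 27 * b ^ 2) ∉ v.asIdeal →
    ¬ Admissible a b v → ∀ u : Above F v, ∀ x : K,
      u.1.valuation F (algebraMap K F x) = v.valuation K x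

/-- `F` is the class field over `K` of the finite group `χ` of characters, in the sense of Weber and Hilbert: the
places of `K` decompose in `F` according to the values of the characters.  If `f` is the number of the values `≠ 0` of
the characters at `v` then all the places of `F` above `v` have the norm `N(v)^f`, and their number is `1/f` times the
number of the characters whose conductor is prime to `v`. -/
structure IsClassField [IsPrincipalIdealRing (𝓞 K)] {𝒢 : Type} (χ : 𝒢 → 𝓞 K → ℂ) : Prop where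
  norm : ∀ (v : HeightOneSpectrum (𝓞 K)) (u : Above F v), Ideal.absNorm u.1.asIdeal =
    Ideal.absNorm v.asIdeal ^ valueOrder χ (Submodule.IsPrincipal.generator v.asIdeal)
  card : ∀ v : HeightOneSpectrum (𝓞 K),
    Nat.card (Above F v) * valueOrder χ (Submodule.IsPrincipal.generator v.asIdeal) =
      Nat.card {g // χ g (Submodule.IsPrincipal.generator v.asIdeal) ≠ 0}

variable {F}

/-- The place of `K` below the place `u` of `F`, as an ideal. -/
def below (K : Type) [Field K] [NumberField K] {F : Type} [Field F] [NumberField F] [Algebra K F]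
    (u : HeightOneSpectrum (𝓞 F)) : Ideal (𝓞 K) :=
  u.asIdeal.comap (algebraMap (𝓞 K) (𝓞 F))

open Classical in
/-- The Euler factor of `E` over `F` at the place `u` of `F`.  If `u ∤ 2(4a³ + 27b²)` it is
`(1 - a_u N(u)^(-s) + N(u)^(1 - 2s))⁻¹` with `a_u = N(u) + 1 - #E(𝓞_F/u)`.  The places `v ∣ 2(4a³ + 27b²)` of `K` split
completely in the fields `F` considered here, so that `E` over `F_u = K_v` has the same Euler factor as over `K_v`, the one of
the newform: `(1 - c(v) N(v)^(-s) + N(v)^(1 - 2s))⁻¹`, without the last term if `v ∣ n`. -/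
noncomputable def factor (a b n : 𝓞 K) (c : Ideal (𝓞 K) → ℂ) (s : ℂ)
    (u : HeightOneSpectrum (𝓞 F)) : ℂ :=
  if 2 * (4 * a ^ 3 + 27 * b ^ 2) ∉ below K u then
    (1 - ((Ideal.absNorm u.asIdeal : ℂ) - points (algebraMap (𝓞 K) (𝓞 F) a)
        (algebraMap (𝓞 K) (𝓞 F) b) u) * (Ideal.absNorm u.asIdeal : ℂ) ^ (-s) +
      (Ideal.absNorm u.asIdeal : ℂ) ^ (1 - 2 * s))⁻¹
  else
    (1 - c (below K u) * (Ideal.absNorm u.asIdeal : ℂ) ^ (-s) +
      (if n ∈ below K u then 0 else 1) * (Ideal.absNorm u.asIdeal : ℂ) ^ (1 - 2 * s))⁻¹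

variable (F) in
/-- `Λ` is an entire function, and for `Re s > 2` it is `L(E/F, s)`, the product of the Euler factors at all the finite
places of `F`. -/
def IsLFunction (a b n : 𝓞 K) (c : Ideal (𝓞 K) → ℂ) (Λ : ℂ → ℂ) : Prop :=
  Differentiable ℂ Λ ∧ ∀ s : ℂ, 2 < s.re →
    HasProd (fun u : HeightOneSpectrum (𝓞 F) => factor (F := F) a b n c s u) (Λ s)

variable (F) in
/-- The curve `y² = x³ + a x + b` over `F`. -/
def curve (a b : 𝓞 K) : WeierstrassCurve F := ⟨0, 0, 0, algebraMap K F a, algebraMap K F b⟩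

open Classical in
/-- The group `E(F)` is finite, of odd order (so its rank is zero), and `Ш(E/F)[2^∞] = 0`. -/
def FiniteOdd (F : Type) [Field F] [NumberField F] [Algebra K F] (a b : 𝓞 K) : Prop :=
  Finite (curve F a b).toAffine.Point ∧ Module.finrank ℤ (curve F a b).toAffine.Point = 0 ∧
    Odd (Nat.card (curve F a b).toAffine.Point) ∧
    ∀ (k : ℕ) (x : Sha (curve F a b)), 2 ^ k • x = 0 → x = 0

open Classical in
/-- The rank conjecture for `E` over `F`, with order and rank zero: `L(E/F, s)` has the entire continuation `Λ`,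
and `ord_{s = 1} L(E/F, s) = rank E(F) = 0`; moreover `E(F)` is finite of odd order and `Ш(E/F)[2^∞] = 0`. -/
def RankZero (F : Type) [Field F] [NumberField F] [Algebra K F] (a b n : 𝓞 K)
    (c : Ideal (𝓞 K) → ℂ) (Λ : ℂ → ℂ) : Prop :=
  IsLFunction F a b n c Λ ∧ Λ 1 ≠ 0 ∧
    analyticOrderAt Λ 1 = Module.finrank ℤ (curve F a b).toAffine.Point ∧
    analyticOrderAt Λ 1 = 0 ∧ FiniteOdd F a b

end extension

section proof

open Pool.Agent Pool.Agent.Run7.h735.BT

variable {F : Type} [Field F] [NumberField F] [Algebra K F]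

lemma points_eq {M : Type} [Field M] [NumberField M] (a b : 𝓞 M) (v : HeightOneSpectrum (𝓞 M)) :
    points a b v = np (𝓞 M ⧸ v.asIdeal) (Ideal.Quotient.mk _ a) (Ideal.Quotient.mk _ b) := rfl

lemma points_le {M : Type} [Field M] [NumberField M] (a b : 𝓞 M) (v : HeightOneSpectrum (𝓞 M)) :
    ‖(Ideal.absNorm v.asIdeal : ℂ) - points a b v‖ ≤ Ideal.absNorm v.asIdeal := by
  have hmv : v.asIdeal.IsMaximal := v.isPrime.isMaximal v.ne_bot
  letI : Field (𝓞 M ⧸ v.asIdeal) := Ideal.Quotient.field v.asIdeal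
  have : Finite (𝓞 M ⧸ v.asIdeal) := Ideal.finiteQuotientOfFreeOfNeBot v.asIdeal v.ne_bot
  have h1 : points a b v ≤ 2 * Nat.card (𝓞 M ⧸ v.asIdeal) :=
    K4H15.BZ.card_pts (R := 𝓞 M ⧸ v.asIdeal) (Ideal.Quotient.mk _ a) (Ideal.Quotient.mk _ b)
  have h2 : Ideal.absNorm v.asIdeal = Nat.card (𝓞 M ⧸ v.asIdeal) := by
    rw [Ideal.absNorm_apply, Submodule.cardQuot_apply]
  rw [← h2] at h1
  have h3 : (Ideal.absNorm v.asIdeal : ℂ) - points a b v =
      (((Ideal.absNorm v.asIdeal : ℤ) - (points a b v : ℤ) : ℤ) : ℂ) := by push_cast; rfl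
  rw [h3, Complex.norm_intCast, abs_le]
  have h4 : (points a b v : ℝ) ≤ 2 * Ideal.absNorm v.asIdeal := by exact_mod_cast h1
  have h5 : (0 : ℝ) ≤ points a b v := Nat.cast_nonneg _
  push_cast
  constructor <;> linarith

lemma mult_factor (a b n : 𝓞 K) (c : Ideal (𝓞 K) → ℂ) (hΔ : 4 * a ^ 3 + 27 * b ^ 2 ≠ 0) (s : ℂ)
    (hs : 2 < s.re) :
    Multipliable fun u : HeightOneSpectrum (𝓞 F) => factor (F := F) a b n c s u := by
  classical
  have h := mult_factors (F := F)
    (fun u => if 2 * (4 * a ^ 3 + 27 * b ^ 2) ∉ below K u then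
      (Ideal.absNorm u.asIdeal : ℂ) - points (algebraMap (𝓞 K) (𝓞 F) a)
        (algebraMap (𝓞 K) (𝓞 F) b) u else c (below K u))
    (fun u => if 2 * (4 * a ^ 3 + 27 * b ^ 2) ∉ below K u then 1 else
      if n ∈ below K u then 0 else 1) s hs ?_ ?_
  · refine h.congr fun u => ?_
    unfold factor
    by_cases hu : 2 * (4 * a ^ 3 + 27 * b ^ 2) ∉ below K u
    · simp only [if_pos hu, one_mul]
    · simp only [if_neg hu]
  · have h0 : algebraMap (𝓞 K) (𝓞 F) (2 * (4 * a ^ 3 + 27 * b ^ 2)) ≠ 0 := by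
      intro h1
      have h2 : 2 * (4 * a ^ 3 + 27 * b ^ 2) = 0 :=
        (FaithfulSMul.algebraMap_injective (𝓞 K) (𝓞 F)) (by rw [h1, map_zero])
      exact mul_ne_zero two_ne_zero hΔ h2
    have h1 := (finite_mem (F := F) h0)
    rw [Filter.eventually_cofinite]
    refine h1.subset fun u hu => ?_
    by_contra h3
    apply hu
    have h4 : 2 * (4 * a ^ 3 + 27 * b ^ 2) ∉ below K u := h3
    simp only [if_pos h4]
    exact points_le _ _ _
  · intro u
    split_ifs <;> simp

lemma two_le_norm (v : HeightOneSpectrum (𝓞 K)) : 2 ≤ Ideal.absNorm v.asIdeal :=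
  Pool.Agent.H921R2.TatePole.two_le_nm v

/-- the Euler factors above a place of `K` -/
lemma factor_eq [IsPrincipalIdealRing (𝓞 K)] {a b n : 𝓞 K} {c : Ideal (𝓞 K) → ℂ}
    (hE : IsNewformOf a b n c) {𝒢 : Type} {χ : 𝒢 → 𝓞 K → ℂ} (hF : IsTwoExtension F a b)
    (hcl : IsClassField F χ) (s : ℂ) (v : HeightOneSpectrum (𝓞 K)) (u : Above F v) :
    K4H55.CX.facF n c v (Ideal.absNorm u.1.asIdeal) s = factor a b n c s u.1 := by
  classical
  have hN := two_le_norm v
  have hu : below K u.1 = v.asIdeal := u.2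
  unfold factor
  rw [hu]
  by_cases hv : 2 * (4 * a ^ 3 + 27 * b ^ 2) ∉ v.asIdeal
  · obtain ⟨f, hf0, hf1, hf2⟩ := res_ext v u.1 u.2 a b hv
    have hlog : Nat.log (Ideal.absNorm v.asIdeal) (Ideal.absNorm u.1.asIdeal) = f := by
      rw [hf1]
      exact Nat.log_pow (by omega) f
    obtain ⟨hnv, hcv⟩ := hE v hv
    rw [if_pos hv]
    unfold K4H55.CX.facF
    rw [if_neg hnv, hlog, hcv]
    have e1 : K4H55.CX.luc ((Ideal.absNorm v.asIdeal : ℂ) - points a b v)
        (Ideal.absNorm v.asIdeal) f = (Ideal.absNorm u.1.asIdeal : ℂ) -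
          points (algebraMap (𝓞 K) (𝓞 F) a) (algebraMap (𝓞 K) (𝓞 F) b) u.1 := by
      have h1 := luc_cast ((Ideal.absNorm v.asIdeal : ℤ) - (points a b v : ℤ))
        (Ideal.absNorm v.asIdeal : ℤ) f
      rw [points_eq a b v, ← hf2] at h1
      push_cast at h1
      rw [points_eq, points_eq]
      exact h1
    rw [e1]
  · have hv' : 2 * (4 * a ^ 3 + 27 * b ^ 2) ∈ v.asIdeal := not_not.1 hv
    obtain ⟨ψ⟩ := hF.split v hv'
    obtain ⟨h1, h2⟩ := norm_plc ψ
    have h3 := hcl.norm v ⟨K4H55.CX.plc ψ, h1⟩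
    have h4 := hcl.norm v u
    have h5 : Ideal.absNorm u.1.asIdeal = Ideal.absNorm v.asIdeal := by
      rw [h4, ← h3]
      exact h2
    rw [if_neg hv, h5]
    unfold K4H55.CX.facF
    have hlog : Nat.log (Ideal.absNorm v.asIdeal) (Ideal.absNorm v.asIdeal) = 1 := by
      have := Nat.log_pow (b := Ideal.absNorm v.asIdeal) (by omega) 1
      rwa [pow_one] at this
    rw [hlog]
    by_cases hn : n ∈ v.asIdeal
    · rw [if_pos hn, if_pos hn, pow_one, zero_mul, add_zero]
    · rw [if_neg hn, if_neg hn, one_mul]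
      have e1 : K4H55.CX.luc (c v.asIdeal) (Ideal.absNorm v.asIdeal) 1 = c v.asIdeal := by
        have h6 := K4H55.CX.exists_ab (c v.asIdeal) (Ideal.absNorm v.asIdeal : ℂ)
        obtain ⟨α, β, h7, h8⟩ := h6
        rw [← h7, ← h8, K4H55.CX.luc_eq, pow_one, pow_one]
      rw [e1]

/-- the Euler factors over `K` itself -/
lemma factor_self [IsPrincipalIdealRing (𝓞 K)] {a b n : 𝓞 K} {c : Ideal (𝓞 K) → ℂ}
    (hE : IsNewformOf a b n c) (s : ℂ) (v : HeightOneSpectrum (𝓞 K)) :
    K4H55.CX.efx n c (fun _ => 1) s v = factor (F := K) a b n c s v := by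
  classical
  have hb : below K v = v.asIdeal := by
    ext x
    exact Iff.rfl
  unfold factor K4H55.CX.efx
  rw [hb]
  by_cases hv : 2 * (4 * a ^ 3 + 27 * b ^ 2) ∉ v.asIdeal
  · obtain ⟨hnv, hcv⟩ := hE v hv
    rw [if_pos hv, if_neg hnv, hcv, mul_one, one_pow, one_mul]
    rfl
  · rw [if_neg hv, mul_one, one_pow, one_mul]
    split_ifs <;> simp

end proof

end field

open Classical in
/-- Let `K` be an imaginary quadratic field of class number one and `E : y² = x³ + a x + b` an elliptic curve over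
`K` with the Bianchi newform `f`; suppose that `E(K)[2] = 0`, the `2`-Selmer group of `E/K` is trivial and the central value
of `E/K` is odd.  Then `L(E/K, s)` has an entire continuation, `ord_{s = 1} L(E/K, s) = rank E(K) = 0`, and for every Galois
extension `F/K` of `2`-power degree, unramified outside of the admissible places, in which the places
`v ∣ 2(4a³ + 27b²)` split completely, `E(F)` is finite of odd order and `Ш(E/F)[2^∞] = 0`.  If `F` is also the class field of a
finite group `𝒢` of characters of `2`-power order, with conductors which are products of different admissible places,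
then `L(E/F, s)` has an entire continuation, `ord_{s = 1} L(E/F, s) = rank E(F) = 0`, and
`k τ L(E/F, 1) = x L(E/K, 1)^#𝒢` for an odd integer `k`, an algebraic integer `x` prime to `2`, and an algebraic integer `τ`
with `|τ|² = ∏_χ N(f_χ)`. -/
theorem result (K : Type) [Field K] [NumberField K] [IsPrincipalIdealRing (𝓞 K)] (σ : K →+* ℂ)
    (δ : K) (hK : IsFieldData K σ δ) (a b : 𝓞 K) (hΔ : 4 * a ^ 3 + 27 * b ^ 2 ≠ 0) (n : 𝓞 K)
    (c : Ideal (𝓞 K) → ℂ) (hf : IsNewform σ δ n c) (hE : IsNewformOf a b n c)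
    (hodd : OddCentralValue σ δ n c)
    (L : Type) [Field L] [NumberField L] [Algebra K L] (θ : L)
    (hθ : IsCubicField a b θ) (hS : TrivialSelmer a b θ) :
    ∃ ΛK : ℂ → ℂ, RankZero K a b n c ΛK ∧
      (∀ (F : Type) [Field F] [NumberField F] [Algebra K F], IsTwoExtension F a b →
        FiniteOdd F a b) ∧
      ∀ (𝒢 : Type) [CommGroup 𝒢] [Finite 𝒢] (T : 𝒢 → Finset (HeightOneSpectrum (𝓞 K)))
        (χ : 𝒢 → 𝓞 K → ℂ), IsCharacterGroup a b T χ →
      ∀ (F : Type) [Field F] [NumberField F] [Algebra K F], IsTwoExtension F a b →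
        IsClassField F χ →
      ∃ (ΛF : ℂ → ℂ) (τ x : integralClosure ℤ ℂ) (k : ℤ), RankZero F a b n c ΛF ∧
        Odd k ∧ IsCoprime x 2 ∧
        ‖(τ : ℂ)‖ ^ 2 = ∏ᶠ g, ∏ v ∈ T g, (Ideal.absNorm v.asIdeal : ℝ) ∧
        k * τ * ΛF 1 = x * ΛK 1 ^ Nat.card 𝒢 := by
  have h : K4H55.BI.IQ K σ δ := ⟨hK.quadratic, hK.imaginary, inferInstance, hK.different⟩
  have hf' : K4H55.BI.BF σ δ n c := ⟨hf.level, hf.zero, hf.one, hf.bound, hf.good, hf.bad,
    hf.invariant, hf.fricke⟩
  have hcub : K4H55.BD.Cub K θ := by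
    refine ⟨fun p q r h0 => ?_, fun β => ?_⟩
    · obtain ⟨t, ht, hu⟩ := hθ.basis 0
      have h1 := hu (p, q, r) h0.symm
      have h2 := hu (0, 0, 0) (by simp)
      have h3 := h1.trans h2.symm
      simp only [Prod.mk.injEq] at h3
      exact h3
    · obtain ⟨t, ht, -⟩ := hθ.basis β
      exact ⟨t.1, t.2.1, t.2.2, ht⟩
  have hadm : ∀ v, Admissible a b v → (2 : 𝓞 K) ∉ v.asIdeal ∧
      n ∉ v.asIdeal ∧ ∃ m : ℤ, c v.asIdeal = m ∧ m % 2 = 1 := by
    intro v hv
    have h2 : (2 : 𝓞 K) ∉ v.asIdeal := fun h2 => hv.1 (v.asIdeal.mul_mem_right _ h2)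
    refine ⟨h2, (hE v hv.1).1, (Ideal.absNorm v.asIdeal : ℤ) - points a b v, ?_, ?_⟩
    · rw [(hE v hv.1).2]
      push_cast
      ring
    · obtain ⟨k, hk⟩ := K4H55.BD.pv_even (a := a) (b := b) h2 hv.2
      have hk' : points a b v = 2 * k := hk
      have h6 := K4H55.BM.norm_odd h2
      rw [Nat.odd_iff] at h6
      omega
  obtain ⟨ω, hω', hω⟩ := hf.cyclic
  obtain ⟨z, hz, hzo⟩ := hodd
  have hz0 : z ≠ 0 := by
    have := hzo 0 (AddSubgroup.zero_mem _)
    rwa [mul_zero] at this
  have hA := K4H55.CX.A_ne h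
  -- points
  have hpts : ∀ (F : Type) [Field F] [NumberField F] [Algebra K F], IsTwoExtension F a b →
      FiniteOdd F a b := by
    intro F _ _ _ hF
    have hG := hF.galois
    obtain ⟨k, hk⟩ := hF.degree
    obtain ⟨h1, h2, -⟩ := K4H55.CX.fin_up (F := F) hΔ hcub hθ.root hS hk hF.split
      (fun u hu => by
        by_cases h3 : ∀ X : 𝓞 K, X ^ 3 + a * X + b ∉ (K4H55.BD.low (K := K) u).asIdeal
        · exact Or.inl h3
        · exact Or.inr fun x => hF.unramified _ hu (fun h4 => h3 h4.2) ⟨u, rfl⟩ x)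
    have hfin : Finite (curve F a b).toAffine.Point := h1.1
    refine ⟨hfin, ?_, h1.2, h2⟩
    refine Module.finrank_eq_zero_of_rank_eq_zero (Module.rank_eq_zero_iff_isTorsion.2 ?_)
    intro P
    refine ⟨⟨(Nat.card (curve F a b).toAffine.Point : ℤ), ?_⟩, ?_⟩
    · have : 0 < Nat.card (curve F a b).toAffine.Point := Nat.card_pos
      exact mem_nonZeroDivisors_of_ne_zero (by exact_mod_cast this.ne')
    · show (Nat.card (curve F a b).toAffine.Point : ℤ) • P = 0
      rw [natCast_zsmul]
      exact card_nsmul_eq_zero'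
  have hrz : ∀ (F : Type) [Field F] [NumberField F] [Algebra K F] {Λ : ℂ → ℂ},
      IsLFunction F a b n c Λ → Λ 1 ≠ 0 → FiniteOdd F a b → RankZero F a b n c Λ := by
    intro F _ _ _ Λ h1 h2 h3
    have h4 : analyticOrderAt Λ 1 = 0 := analyticOrderAt_eq_zero.2 (Or.inr h2)
    refine ⟨h1, h2, ?_, h4, h3⟩
    rw [h4, h3.2.1]
    rfl
  -- the field K
  obtain ⟨ΛK, k1, k2, k3⟩ := K4H55.CX.chr_one h hf' hz
  have hK1 : ΛK 1 ≠ 0 := by
    rw [k3]
    exact mul_ne_zero hA hz0
  have hKL : IsLFunction K a b n c ΛK := by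
    refine ⟨k1, fun s hs => ?_⟩
    have h1 := k2 s hs
    have e : (fun u : HeightOneSpectrum (𝓞 K) => factor (F := K) a b n c s u) =
        K4H55.CX.efx n c (fun _ => 1) s := by
      funext v
      exact (factor_self hE s v).symm
    rw [e]
    exact h1
  have hKK : IsTwoExtension K a b :=
    { galois := inferInstance
      degree := ⟨0, by simp⟩
      split := fun v _ => ⟨Algebra.ofId K _⟩
      unramified := fun v hv hv2 u x => by
        have e : u.1 = v := HeightOneSpectrum.ext u.2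
        rw [e]
        rfl }
  refine ⟨ΛK, hrz K hKL hK1 (hpts K hKK), hpts, ?_⟩
  intro 𝒢 _ _ T χ h𝒢 F _ _ _ hF hcl
  have hch : ∀ (T : Finset (HeightOneSpectrum (𝓞 K))) (χ : 𝓞 K → ℂ), IsCharacter T χ →
      K4H55.CX.CH T χ := fun T χ h1 =>
    ⟨h1.one, h1.mul, h1.zero, h1.periodic, h1.units, h1.primitive, h1.order⟩
  have hcf : K4H55.CX.CF T χ := ⟨fun g => hch _ _ (h𝒢.character g), h𝒢.mul⟩
  have hlaw : K4H55.CX.Law F χ := ⟨fun v u hu => hcl.norm v ⟨u, hu⟩, fun v => hcl.card v⟩
  obtain ⟨G, τ, x, k, g1, g2, g3, g4, g5, g6⟩ := K4H55.CX.ab_unit h hf' hcf hlaw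
    (fun g v hv => hadm v (h𝒢.admissible g v hv)) hz hω hω' hzo
  have hG1 : G 1 ≠ 0 := K4H55.CX.ne_of_unit g5 (mul_ne_zero hA hz0) g6
  have hfinab : ∀ v : HeightOneSpectrum (𝓞 K), Finite {u : HeightOneSpectrum (𝓞 F) //
      u.asIdeal.comap (algebraMap (𝓞 K) (𝓞 F)) = v.asIdeal} := by
    intro v
    have h1 := hlaw.card v
    have hpos : 0 < Nat.card {g // χ g (K4H55.BI.gen v) ≠ 0} := by
      have : Nonempty {g // χ g (K4H55.BI.gen v) ≠ 0} :=
        ⟨⟨1, by rw [hcf.triv]; exact one_ne_zero⟩⟩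
      exact Nat.card_pos
    refine Nat.finite_of_card_ne_zero fun h0 => ?_
    rw [h0, zero_mul] at h1
    omega
  have hFL : IsLFunction F a b n c G := by
    refine ⟨g1, fun s hs => ?_⟩
    refine Run7.h735.BT.hasProd_above (K := K) _ (mult_factor a b n c hΔ s hs) hfinab ?_
    have h1 := g2 s hs
    have e : (fun v : HeightOneSpectrum (𝓞 K) => ∏ᶠ u : {u : HeightOneSpectrum (𝓞 F) //
        u.asIdeal.comap (algebraMap (𝓞 K) (𝓞 F)) = v.asIdeal}, factor (F := F) a b n c s u.1) =
        fun v : HeightOneSpectrum (𝓞 K) => ∏ᶠ u : {u : HeightOneSpectrum (𝓞 F) //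
        u.asIdeal.comap (algebraMap (𝓞 K) (𝓞 F)) = v.asIdeal},
          K4H55.CX.facF n c v (Ideal.absNorm u.1.asIdeal) s := by
      funext v
      exact finprod_congr fun u => (factor_eq hE hF hcl s v u).symm
    rw [e]
    exact h1
  refine ⟨G, τ, x, k, hrz F hFL hG1 (hpts F hF), g3, g5, g4, ?_⟩
  rw [k3]
  exact g6

end Pool.Agent.Results.MP_1a91b9_nt.BianchiTwoExtensions
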