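import Pool.Agent.Run7.h691.MJ.FG
import Pool.Agent.Run7.h691.MJ.Ex

/-!
# The rank conjecture for `y² = x³ + Γ x` over EVERY abelian extension of `ℚ(i)` of exponent dividing
# four that is unramified above `2`: the exact proportion

`K = ℚ(i)` (a number field with an isomorphism `e` of the ring `ℤ[i]` with its ring of integers), `n ≥ 0`,
`b_1, …, b_n` are any fixed Gaussian integers that are congruent to `1` modulo `4` and independent modulo
squares, `m_i ∈ {2, 4}`, with `N(b_i) ≡ 1 mod 16` if `m_i = 4`, and `F = K(b_1^(1/m_1), …, b_n^(1/m_n))`, a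
field of degree `∏ m_i` over `K` with Galois group `∏ ℤ/m_i`.  (These are all the abelian extensions of `K`
of exponent dividing four that are unramified at `1 + i`; this remark is not formalized.)

The class is the set of all squarefree `Γ ≡ 1 mod 2 + 2i` with `N(Γ) ≡ 13 mod 16` that are coprime to the
`b_i`, and `E_Γ : y² = x³ + Γ x`.  The joint criterion says that all the `∏ m_i` numbers
`A = Γ ∏ b_i^{e_i}` (`0 ≤ e_i < 4`, `e_i` even if `m_i = 2`) satisfy an elementary criterion: a certain graph on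
the prime factors of the squarefree part `D` of `A` has an odd number of spanning trees, and `D` is not a
square modulo the primes which divide `A` with a multiplicity `≡ 2 mod 4`.

* For every such `F` and every `Γ` in the class the `L`-function `L(E_Γ / F, s)` has an entire continuation.
* If `Γ` satisfies the joint criterion then the rank part of the conjecture of Birch and Swinnerton-Dyer
  holds for `E_Γ` over `F`: `ord_{s=1} L(E_Γ / F, s) = rk E_Γ(F) = 0`, and `E_Γ(F)` has exactly two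
  elements.
* Let `w` be the number of the primes which divide one of the numbers `∏ b_i^{e_i}` with a
  multiplicity `≡ 2 mod 4` (the primes that ramify in `F`) and `r` the number of the `m_i = 4`.  If the `b_i`
  are compatible (the conditions at these primes are consistent) then the joint criterion holds for exactly
  the proportion `c^(2^r) / 2^w` of the class, `c = ∏_{j ≥ 0} (1 - 2^{-(2j+1)}) = 0.4194...`;
  otherwise it never holds.
* For all `n` and all `m_i ∈ {2, 4}` there are compatible `b_i`, with `w = n`; thus there are fields `F` of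
  arbitrarily large degree, with each Galois group `∏ ℤ/m_i`, over which the rank part holds for a
  positive proportion, which is known exactly for the criterion.

`L(E_Γ / F, s)` is Mathlib's `L`-series of a Weierstrass curve over a number field, with the Euler
factors of the minimal models at all the places of `F`.

Proof.  `F / K` is a tower of quadratic extensions `N(√d) / N`; over each of them the Euler factors of `E_δ` are
those of `E_δ` and `E_{δ d²}`, where the quartic twist by `d²` descends to `K` also if `d` does not; the places above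
`2` (no good reduction there, as `F / K` is unramified) need a congruence modulo `16` for the second
step of a fourth root, and the points are found by descent in the quadratic steps.  The `L`-functions
over `K` have Hecke characters with exponents; the central values are treated with the work of helper699
and helper615.  The joint law of the criteria with the conditions on the symbols at fixed primes is
`Pool/Agent/Run7/h691/GJ` (large sieve), and the number of the `Γ` with prescribed symbols is found by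
a sieve and translations of residue classes.
-/

set_option autoImplicit false

open scoped Classical

namespace Pool.Agent.Results.MP_1a91b9_nt.EveryExponentFourGaussian

open NumberField WeierstrassCurve
open Pool.Agent.H691.MJ (Ad Cg CR AE WB AW OW mm mu Dat Cmb RB KT rt cw)

/-- The curve `E_γ : y² = x³ + γ x`. -/
def curve {F : Type} [Field F] (γ : F) : WeierstrassCurve F := ⟨0, 0, 0, γ, 0⟩

/-- `z ≡ 1 mod 2 + 2i`. -/
def Primary (z : GaussianInt) : Prop := (⟨2, 2⟩ : GaussianInt) ∣ z - 1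

/-- The generators `b i` and the degrees `m i` of the roots: `m i ∈ {2, 4}`, `b i ≡ 1 mod 4`, `N(b i) ≡ 1 mod 16`
if `m i = 4`, and the `b i` are independent modulo squares. -/
structure Admissible {n : ℕ} (b : Fin n → GaussianInt) (m : Fin n → ℕ) : Prop where
  index : ∀ i, m i = 2 ∨ m i = 4
  four : ∀ i, (4 : GaussianInt) ∣ b i - 1
  norm : ∀ i, m i = 4 → (b i).norm % 16 = 1
  indep : ∀ J : Finset (Fin n), J.Nonempty → ¬ IsSquare (∏ i ∈ J, b i)

/-- `Γ ≡ 1 mod 2 + 2i` is squarefree and coprime to the `b i`, and its norm is `13` modulo `16`. -/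
def InClass {n : ℕ} (b : Fin n → GaussianInt) (Γ : GaussianInt) : Prop :=
  Primary Γ ∧ Squarefree Γ ∧ Γ.norm % 16 = 13 ∧ ∀ i, IsCoprime Γ (b i)

/-- The exponents of the twists which occur over `F`: `0 ≤ e i < 4`, and `e i` is even if `m i = 2`. -/
def Exps {n : ℕ} (m e : Fin n → ℕ) : Prop := ∀ i, e i < 4 ∧ (m i = 2 → 2 ∣ e i)

/-- `D` is the squarefree part of `A`. -/
def SqPart (A D : GaussianInt) : Prop := Primary D ∧ Squarefree D ∧ IsSquare (D * A)

/-- The primary prime `π` divides `A` with a multiplicity `≡ 2 mod 4`. -/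
def TwoTimes (A π : GaussianInt) : Prop := Primary π ∧ Prime π ∧ multiplicity π A % 4 = 2

/-- `a` is a square modulo `π`. -/
def SquareAt (π a : GaussianInt) : Prop := ∃ x, π ∣ a - x ^ 2

/-- The criterion for `A`, for its squarefree part `D`: for every factorisation `D = d d'` with `d`, `d'`
primary and different from `1`, `d'` is not a square modulo one of the prime factors of `d`, or `d` is not
a square modulo one of the prime factors of `d'`; and `D` is not a square modulo the primes which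
divide `A` with a multiplicity `≡ 2 mod 4`. -/
def Criterion (A : GaussianInt) : Prop :=
  ∃ D : GaussianInt, SqPart A D ∧
    (∀ d d' : GaussianInt, Primary d → Primary d' → D = d * d' →
      (∀ π, Prime π → π ∣ d → SquareAt π d') → (∀ π, Prime π → π ∣ d' → SquareAt π d) →
        d = 1 ∨ d' = 1) ∧
    ∀ π, TwoTimes A π → ¬ SquareAt π D

/-- The joint criterion: all the `Γ ∏ b_i^{e_i}` satisfy the criterion. -/
def Joint {n : ℕ} (b : Fin n → GaussianInt) (m : Fin n → ℕ) (Γ : GaussianInt) : Prop :=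
  ∀ e : Fin n → ℕ, Exps m e → Criterion (Γ * ∏ i, b i ^ e i)

/-- The generators are compatible: for each prime `π` which divides `∏ b_i^{e_i}` and `∏ b_i^{e'_i}` with
multiplicities `≡ 2 mod 4`, the squarefree part of the one is a square modulo `π` if and only if that of the
other is. -/
def Compatible {n : ℕ} (b : Fin n → GaussianInt) (m : Fin n → ℕ) : Prop :=
  ∀ e e' : Fin n → ℕ, Exps m e → Exps m e' → ∀ D D' π : GaussianInt,
    SqPart (∏ i, b i ^ e i) D → SqPart (∏ i, b i ^ e' i) D' →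
    TwoTimes (∏ i, b i ^ e i) π → TwoTimes (∏ i, b i ^ e' i) π → (SquareAt π D ↔ SquareAt π D')

/-- The number `w` of the primary primes which divide a number `∏ b_i^{e_i}` with a multiplicity
`≡ 2 mod 4`. -/
noncomputable def ramified {n : ℕ} (b : Fin n → GaussianInt) (m : Fin n → ℕ) : ℕ :=
  {π : GaussianInt | ∃ e : Fin n → ℕ, Exps m e ∧ TwoTimes (∏ i, b i ^ e i) π}.ncard

/-- The number `r` of the fourth roots. -/
def fourths {n : ℕ} (m : Fin n → ℕ) : ℕ := (Finset.univ.filter fun i => m i = 4).card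

section
variable {K : Type} [Field K] [NumberField K] (e : GaussianInt ≃+* 𝓞 K)

/-- `F` is generated over `K` by the roots `θ i` of degree `m i` of the elements `b i`. -/
def IsRadical {n : ℕ} (b : Fin n → GaussianInt) (m : Fin n → ℕ) (F : Type) [Field F] [Algebra K F]
    (θ : Fin n → F) : Prop :=
  (∀ i, θ i ^ m i = algebraMap K F (e (b i))) ∧
    ∀ S : Subfield F, (∀ x : K, algebraMap K F x ∈ S) → (∀ i, θ i ∈ S) → S = ⊤

/-- `Λ` is entire and equal to `L(E_Γ / F, s)` for `Re s > 3 / 2`. -/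
def Continues (F : Type) [Field F] [NumberField F] [Algebra K F] (Γ : GaussianInt) (Λ : ℂ → ℂ) :
    Prop :=
  Differentiable ℂ Λ ∧ ∀ s : ℂ, 3 / 2 < s.re → Λ s = (curve (algebraMap K F (e Γ))).LSeries s

/-- The order of vanishing of `Λ` at `1` is the rank of `E_Γ(F)`; moreover both are zero: `Λ 1 ≠ 0` and
`E_Γ(F)` has exactly two elements. -/
def RankFormula (F : Type) [Field F] [NumberField F] [Algebra K F] (Γ : GaussianInt) (Λ : ℂ → ℂ) :
    Prop :=
  analyticOrderAt Λ 1 = (Module.finrank ℤ (curve (algebraMap K F (e Γ))).toAffine.Point : ℕ∞) ∧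
    Λ 1 ≠ 0 ∧ Nat.card (curve (algebraMap K F (e Γ))).toAffine.Point = 2

end

/-- The number of the Gaussian integers of norm at most `X` with the property `P`. -/
noncomputable def num (P : GaussianInt → Prop) (X : ℕ) : ℕ := {z : GaussianInt | z.norm ≤ X ∧ P z}.ncard

/-- The infinite product `(1 - 1/2) (1 - 1/8) (1 - 1/32) ⋯`. -/
noncomputable def c : ℝ := ∏' i : ℕ, (1 - (1 / 2 : ℝ) ^ (2 * i + 1))

theorem primary_iff (z : GaussianInt) : Primary z ↔ Pool.Agent.H304R2.EC.A1.prim z :=
  (Pool.Agent.W164.RC.prim_iff_dvd z).symm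

/-- the indicator of the fourth roots -/
noncomputable def kk {n : ℕ} (m : Fin n → ℕ) (i : Fin n) : Bool := decide (m i = 4)

section
variable {n : ℕ} {b : Fin n → GaussianInt} {m : Fin n → ℕ}

theorem ad_of (h : Admissible b m) : Ad b (kk m) :=
  ⟨h.four, fun i hi => h.norm i (by simpa [kk] using hi), h.indep⟩

theorem ae_iff (h : Admissible b m) (e : Fin n → ℕ) : Exps m e ↔ AE (kk m) e := by
  refine forall_congr' fun i => and_congr_right fun _ => ?_
  have h1 : kk m i = false ↔ m i = 2 := by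
    unfold kk
    rw [decide_eq_false_iff_not]
    rcases h.index i with h2 | h2 <;> rw [h2] <;> norm_num
  rw [h1]
  exact ⟨fun h2 h3 => Nat.mod_eq_zero_of_dvd (h2 h3), fun h2 h3 => Nat.dvd_of_mod_eq_zero (h2 h3)⟩

theorem cg_iff (h : Admissible b m) (Γ : GaussianInt) : InClass b Γ ↔ Cg b Γ := by
  have hA := ad_of h
  have key : ∀ {Γ : GaussianInt}, Pool.Agent.Y699.PS Γ →
      ((∀ i, IsCoprime Γ (b i)) ↔ Disjoint (Pool.Agent.Y699.PD Γ) (WB b)) := by
    intro Γ hΓ
    rw [Finset.disjoint_left]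
    constructor
    · intro h1 π hπ hπ'
      obtain ⟨h2, i, h3⟩ := hA.mem_WB.1 hπ'
      have h4 := ((Pool.Agent.Y699.mem_PD hΓ.ne).1 hπ).2
      exact h2.pr.not_isUnit ((h1 i).isUnit_of_dvd' h4 h3)
    · intro h1 i
      refine isCoprime_of_prime_dvd (fun h2 => hΓ.ne h2.1) fun ρ hρ h2 h3 => ?_
      obtain ⟨π, hπ, hass⟩ := Pool.Agent.Y699.exists_PP hρ
        (Pool.Agent.Y699.odd_of_dvd h2 (Pool.Agent.H304R2.EC.A1.prim_norm_odd hΓ.prm))
      exact h1 ((Pool.Agent.Y699.mem_PD hΓ.ne).2 ⟨hπ, hass.dvd.trans h2⟩)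
        (hA.mem_WB.2 ⟨hπ, i, hass.dvd.trans h3⟩)
  constructor
  · rintro ⟨h1, h2, h3, h4⟩
    have hps : Pool.Agent.Y699.PS Γ := ⟨(primary_iff Γ).1 h1, h2⟩
    exact ⟨hps, h3, (key hps).1 h4⟩
  · rintro ⟨h1, h2, h3⟩
    exact ⟨(primary_iff Γ).2 h1.prm, h1.sqf, h2, (key h1).2 h3⟩

/-- the squarefree part -/
theorem sqPart_iff {S W : Finset GaussianInt} {f : GaussianInt → ℕ} (h : Dat S W)
    (D : GaussianInt) : SqPart (AW S W f) D ↔ D = ∏ ρ ∈ S ∪ OW W f, ρ := by
  have p1 := (Pool.Agent.Y699.PS_prod (h.ppU (m := f))).1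
  constructor
  · rintro ⟨h1, h2, h3⟩
    exact (Pool.Agent.H691.MJ.sqp h ⟨(primary_iff D).1 h1, h2⟩).1 h3
  · rintro rfl
    exact ⟨(primary_iff _).2 p1.prm, p1.sqf, (Pool.Agent.H691.MJ.sqp h p1).2 rfl⟩

theorem twoTimes_iff {S W : Finset GaussianInt} {f : GaussianInt → ℕ} (h : Dat S W)
    (π : GaussianInt) : TwoTimes (AW S W f) π ↔ π ∈ W ∧ f π % 4 = 2 := by
  constructor
  · rintro ⟨h1, h2, h3⟩
    exact (Pool.Agent.H691.MJ.two_iff h ⟨h2, (primary_iff π).1 h1⟩).1 h3
  · rintro ⟨h1, h2⟩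
    have hp := h.w π h1
    exact ⟨(primary_iff π).2 hp.prm, hp.pr, (Pool.Agent.H691.MJ.two_iff h hp).2 ⟨h1, h2⟩⟩

/-- the two forms of the criterion for the squarefree part -/
theorem fac_iff {D : GaussianInt} (hD : Pool.Agent.Y699.PS D) :
    (∀ d d' : GaussianInt, Primary d → Primary d' → D = d * d' →
      (∀ π, Prime π → π ∣ d → SquareAt π d') → (∀ π, Prime π → π ∣ d' → SquareAt π d) →
        d = 1 ∨ d' = 1) ↔ Pool.Agent.H691.GZ.Gd (Pool.Agent.Y699.PD D) := by
  have hsq : ∀ {d d' : GaussianInt}, D = d * d' → ((∀ π, Prime π → π ∣ d → SquareAt π d') ↔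
      ∀ π ∈ Pool.Agent.Y699.PD d, Pool.Agent.Y699.qr π d' = 1) := by
    intro d d' he
    have hd0 : d ≠ 0 := by
      rintro rfl
      exact hD.ne (by rw [he, zero_mul])
    have hnd : ∀ π : GaussianInt, Prime π → π ∣ d → ¬ π ∣ d' := by
      intro π hπ h1 h2
      exact hπ.not_isUnit (hD.sqf π (by rw [he]; exact mul_dvd_mul h1 h2))
    constructor
    · intro h π hπ
      rw [Pool.Agent.Y699.mem_PD hd0] at hπ
      have h1 := hnd π hπ.1.pr hπ.2
      have h2 : ∃ b, π ∣ d' - b ^ 2 := h π hπ.1.pr hπ.2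
      unfold Pool.Agent.Y699.qr
      rw [if_neg h1, if_pos h2]
    · intro h π hπ hπd
      have hodd : π.norm % 2 = 1 := Pool.Agent.Y699.odd_of_dvd (hπd.trans ⟨d', he⟩)
        (Pool.Agent.H304R2.EC.A1.prim_norm_odd hD.prm)
      obtain ⟨ρ, hρ, hass⟩ := Pool.Agent.Y699.exists_PP hπ hodd
      have hρd : ρ ∣ d := hass.dvd.trans hπd
      have h1 := h ρ ((Pool.Agent.Y699.mem_PD hd0).2 ⟨hρ, hρd⟩)
      unfold Pool.Agent.Y699.qr at h1
      rw [if_neg (hnd ρ hρ.pr hρd)] at h1
      by_contra hc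
      rw [if_neg (fun ⟨b, hb⟩ => hc ⟨b, hass.symm.dvd.trans hb⟩)] at h1
      exact absurd h1 (by norm_num)
  constructor
  · intro h2
    refine Pool.Agent.H691.GZ.NS.gd_of_ker hD fun d d' hd hd' he k1 k2 => ?_
    exact h2 d d' ((primary_iff d).2 hd) ((primary_iff d').2 hd') he
      ((hsq he).2 k1) ((hsq (by rw [he, mul_comm])).2 k2)
  · intro h2 d d' hd hd' he k1 k2
    exact Pool.Agent.H691.GZ.NS.ker_of_gd hD h2 d d' ((primary_iff d).1 hd) ((primary_iff d').1 hd') he
      ((hsq he).1 k1) ((hsq (by rw [he, mul_comm])).1 k2)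

/-- the two forms of the criterion -/
theorem crit_iff {S W : Finset GaussianInt} {f : GaussianInt → ℕ} (h : Dat S W) :
    Criterion (AW S W f) ↔ Pool.Agent.H691.GZ.Gd (S ∪ OW W f) ∧
      ∀ π ∈ W, f π % 4 = 2 → ∑ ρ ∈ S ∪ OW W f, Pool.Agent.H691.GZ.qa π ρ = 1 := by
  obtain ⟨p1, p2⟩ := Pool.Agent.Y699.PS_prod (h.ppU (m := f))
  have h01 : ∀ a : ZMod 2, (¬ a = 0) ↔ a = 1 := by decide
  have h1 : Criterion (AW S W f) ↔ (Pool.Agent.H691.GZ.Gd (S ∪ OW W f) ∧
      ∀ π, TwoTimes (AW S W f) π → ¬ SquareAt π (∏ ρ ∈ S ∪ OW W f, ρ)) := by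
    unfold Criterion
    constructor
    · rintro ⟨D, k1, k2, k3⟩
      rw [sqPart_iff h] at k1
      rw [k1] at k2 k3
      have k4 := (fac_iff p1).1 k2
      rw [p2] at k4
      exact ⟨k4, k3⟩
    · rintro ⟨k1, k2⟩
      refine ⟨_, (sqPart_iff h _).2 rfl, (fac_iff p1).2 ?_, k2⟩
      rw [p2]
      exact k1
  rw [h1]
  refine and_congr_right fun _ => ?_
  constructor
  · intro k1 π hπ h2
    have k2 := k1 π ((twoTimes_iff h π).2 ⟨hπ, h2⟩)
    unfold SquareAt at k2
    rw [Pool.Agent.H691.MJ.sq_iff h hπ h2] at k2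
    exact (h01 _).1 k2
  · intro k1 π hπ
    obtain ⟨h2, h3⟩ := (twoTimes_iff h π).1 hπ
    unfold SquareAt
    rw [Pool.Agent.H691.MJ.sq_iff h h2 h3, k1 π h2 h3]
    decide

/-- the two forms of the joint criterion -/
theorem joint_iff (h : Admissible b m) {Γ : GaussianInt} (hΓ : Cg b Γ) :
    Joint b m Γ ↔ CR b (kk m) Γ := by
  have hA := ad_of h
  unfold Joint CR
  refine forall_congr' fun e => ?_
  rw [ae_iff h]
  refine imp_congr_right fun _ => ?_
  rw [← hA.AW_eq hΓ]
  exact crit_iff (hA.dat hΓ)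

/-- the two forms of the compatibility -/
theorem comp_iff (h : Admissible b m) : Compatible b m ↔ Cmb b (kk m) := by
  have hA := ad_of h
  have hD := hA.dat0
  have key : ∀ (f : GaussianInt → ℕ) (π : GaussianInt), π ∈ WB b → f π % 4 = 2 →
      (SquareAt π (∏ ρ ∈ ∅ ∪ OW (WB b) f, ρ) ↔ ∑ ρ ∈ OW (WB b) f, Pool.Agent.H691.GZ.qa π ρ = 0) := by
    intro f π h1 h2
    have h3 := Pool.Agent.H691.MJ.sq_iff hD h1 h2
    rw [Finset.empty_union] at h3 ⊢
    exact h3
  have hz : ∀ x y : ZMod 2, (x = 0 ↔ y = 0) → x = y := by decide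
  unfold Compatible Cmb
  constructor
  · intro h1 π hπ e e' h2 h3 h4 h5
    have h6 := h1 e e' ((ae_iff h e).2 h2) ((ae_iff h e').2 h3) _ _ π
      (by rw [← hA.AW_pw]; exact (sqPart_iff hD _).2 rfl)
      (by rw [← hA.AW_pw]; exact (sqPart_iff hD _).2 rfl)
      (by rw [← hA.AW_pw]; exact (twoTimes_iff hD π).2 ⟨hπ, h4⟩)
      (by rw [← hA.AW_pw]; exact (twoTimes_iff hD π).2 ⟨hπ, h5⟩)
    rw [key _ π hπ h4, key _ π hπ h5] at h6
    exact hz _ _ h6
  · intro h1 e e' h2 h3 D D' π h4 h5 h6 h7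
    rw [← hA.AW_pw] at h4 h5 h6 h7
    rw [sqPart_iff hD] at h4 h5
    rw [twoTimes_iff hD] at h6 h7
    rw [h4, h5, key _ π h6.1 h6.2, key _ π h7.1 h7.2,
      h1 π h6.1 e e' ((ae_iff h e).1 h2) ((ae_iff h e').1 h3) h6.2 h7.2]

theorem ram_eq (h : Admissible b m) : ramified b m = (RB b (kk m)).card := by
  have hA := ad_of h
  unfold ramified
  rw [← Set.ncard_coe_finset]
  congr 1
  ext π
  unfold RB
  rw [Finset.mem_coe, Finset.mem_filter]
  constructor
  · rintro ⟨e, h1, h2⟩
    rw [← hA.AW_pw, twoTimes_iff hA.dat0] at h2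
    exact ⟨h2.1, e, (ae_iff h e).1 h1, h2.2⟩
  · rintro ⟨h1, e, h2, h3⟩
    refine ⟨e, (ae_iff h e).2 h2, ?_⟩
    rw [← hA.AW_pw, twoTimes_iff hA.dat0]
    exact ⟨h1, h3⟩

theorem fourths_eq (m : Fin n → ℕ) : fourths m = (KT (kk m)).card := by
  unfold fourths KT kk
  congr 1
  ext i
  simp

theorem rt_eq (h : Admissible b m) (i : Fin n) : rt (kk m) i = m i := by
  unfold rt kk
  rcases h.index i with h2 | h2 <;> rw [h2] <;> rfl

theorem norm_iff (z : GaussianInt) (X : ℕ) : z.norm ≤ X ↔ H385.nrm z ≤ X := by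
  have h0 : ((H385.nrm z : ℕ) : ℤ) = z.norm := GaussianInt.abs_natCast_norm z
  omega

/-- the results over one field -/
theorem over_field {K : Type} [Field K] [NumberField K] (e : GaussianInt ≃+* 𝓞 K)
    (hb : Admissible b m) (F : Type) [Field F] [NumberField F] [Algebra K F]
    (θ : Fin n → F) (hF : IsRadical e b m F θ) :
    Module.finrank K F = ∏ i, m i ∧ ∀ Γ : GaussianInt, InClass b Γ →
      ∃ Λ : ℂ → ℂ, Continues e F Γ Λ ∧ (Joint b m Γ → RankFormula e F Γ Λ) := by
  obtain ⟨h1, h2⟩ := Pool.Agent.H691.MJ.over_F e (ad_of hb) F θ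
    (fun i => by rw [rt_eq hb]; exact hF.1 i) hF.2
  refine ⟨h1.trans (Finset.prod_congr rfl fun i _ => rt_eq hb i), fun Γ hΓ => ?_⟩
  have hcg := (cg_iff hb Γ).1 hΓ
  obtain ⟨Λ, h3, h4, h5⟩ := h2 Γ hcg
  refine ⟨Λ, ⟨h3, h4⟩, fun hJ => ?_⟩
  obtain ⟨h6, hc⟩ := h5 ((joint_iff hb hcg).1 hJ)
  change Nat.card (curve (algebraMap K F (e Γ))).toAffine.Point = 2 at hc
  have hfin : Finite (curve (algebraMap K F (e Γ))).toAffine.Point := by
    apply Nat.finite_of_card_ne_zero
    rw [hc]
    norm_num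
  refine ⟨?_, h6, hc⟩
  have h11 : analyticOrderAt Λ 1 = 0 := analyticOrderAt_eq_zero.2 (Or.inr h6)
  have h12 : Module.finrank ℤ (curve (algebraMap K F (e Γ))).toAffine.Point = 0 := by
    apply Module.finrank_eq_zero_of_rank_eq_zero
    rw [rank_eq_zero_iff]
    intro x
    refine ⟨(Nat.card (curve (algebraMap K F (e Γ))).toAffine.Point : ℤ), by rw [hc]; norm_num, ?_⟩
    rw [natCast_zsmul]
    exact card_nsmul_eq_zero'
  rw [h11, h12]
  rfl

end

/-- **Main theorem.**  (1) `0.4194 < c < 0.4195`.  For all `n`, all `b_i` and all `m_i` with `Admissible b m`: (2) there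
are at least `C X` numbers of norm at most `X` in the class; (3) if the `b_i` are compatible then exactly the
proportion `c^(2^r) / 2^w` of the class, ordered by norm, satisfies the joint criterion, and otherwise no
element does; (4) for `K = ℚ(i)` the field `F = K(b_1^(1/m_1), …, b_n^(1/m_n))` exists, and for all forms of `F` the
degree of `F / K` is `∏ m_i`, for all `Γ` in the class the function `L(E_Γ / F, s)` has an entire continuation, and
if `Γ` satisfies the joint criterion then its order at `s = 1` is the rank of `E_Γ(F)`, both are zero, and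
`E_Γ(F)` has exactly two elements.  (5) For all `n` and all `m_i ∈ {2, 4}` there are `b_i` with `Admissible b m` which
are compatible, with `w = n`. -/
theorem result :
    (0.4194 < c ∧ c < 0.4195) ∧
    (∀ (n : ℕ) (b : Fin n → GaussianInt) (m : Fin n → ℕ), Admissible b m →
      (∃ C : ℝ, 0 < C ∧ ∃ X₀ : ℕ, ∀ X : ℕ, X₀ ≤ X → C * X ≤ num (InClass b) X) ∧
      (Compatible b m →
        Filter.Tendsto (fun X : ℕ => (num (fun Γ => InClass b Γ ∧ Joint b m Γ) X : ℝ) /
          num (InClass b) X) Filter.atTop (nhds (c ^ 2 ^ fourths m / 2 ^ ramified b m))) ∧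
      (¬ Compatible b m → ∀ Γ : GaussianInt, InClass b Γ → ¬ Joint b m Γ) ∧
      ∀ (K : Type) [Field K] [NumberField K] (e : GaussianInt ≃+* 𝓞 K),
        (∃ (F : Type) (_ : Field F) (_ : NumberField F) (_ : Algebra K F) (θ : Fin n → F),
          IsRadical e b m F θ) ∧
        ∀ (F : Type) [Field F] [NumberField F] [Algebra K F] (θ : Fin n → F),
          IsRadical e b m F θ →
          Module.finrank K F = ∏ i, m i ∧ ∀ Γ : GaussianInt, InClass b Γ →
            ∃ Λ : ℂ → ℂ, Continues e F Γ Λ ∧ (Joint b m Γ → RankFormula e F Γ Λ)) ∧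
    ∀ (n : ℕ) (m : Fin n → ℕ), (∀ i, m i = 2 ∨ m i = 4) →
      ∃ b : Fin n → GaussianInt, Admissible b m ∧ Compatible b m ∧ ramified b m = n := by
  have hc2 := Pool.Agent.Y948.CQ.t_C2
  refine ⟨⟨hc2.2.2.2.1, hc2.2.2.2.2⟩, fun n b m hb => ?_, fun n m hm => ?_⟩
  · have hA := ad_of hb
    have hcl : ∀ X : ℕ, {Γ : GaussianInt | Γ.norm ≤ X ∧ InClass b Γ} =
        {Γ : GaussianInt | H385.nrm Γ ≤ X ∧ Cg b Γ} := by
      intro X
      ext Γ
      exact and_congr (norm_iff Γ X) (cg_iff hb Γ)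
    have hjs : ∀ X : ℕ, {Γ : GaussianInt | Γ.norm ≤ X ∧ (InClass b Γ ∧ Joint b m Γ)} =
        {Γ : GaussianInt | H385.nrm Γ ≤ X ∧ (Cg b Γ ∧ CR b (kk m) Γ)} := by
      intro X
      ext Γ
      refine and_congr (norm_iff Γ X) ?_
      constructor
      · rintro ⟨h1, h2⟩
        have h3 := (cg_iff hb Γ).1 h1
        exact ⟨h3, (joint_iff hb h3).1 h2⟩
      · rintro ⟨h3, h2⟩
        exact ⟨(cg_iff hb Γ).2 h3, (joint_iff hb h3).2 h2⟩
    refine ⟨?_, fun hC => ?_, fun hC Γ hΓ hJ => ?_, fun K _ _ e => ⟨?_, fun F _ _ _ θ hF =>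
      over_field e hb F θ hF⟩⟩
    · obtain ⟨C, h1, h2⟩ := Pool.Agent.H691.MJ.Fc_low (W := WB b) fun π hπ => (hA.mem_WB.1 hπ).1
      obtain ⟨X₀, hX₀⟩ := Filter.eventually_atTop.1 h2
      refine ⟨C, h1, X₀, fun X hX => ?_⟩
      unfold num
      rw [hcl, Pool.Agent.H691.MJ.cls_card hA]
      exact hX₀ X hX
    · have h1 := Pool.Agent.H691.MJ.law hA
      rw [Pool.Agent.H691.MJ.TQ_card ((comp_iff hb).1 hC), ← fourths_eq, ← ram_eq hb] at h1
      have h2 : c ^ 2 ^ fourths m / 2 ^ ramified b m =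
          Pool.Agent.Y703.CQ.c2 ^ 2 ^ fourths m * (1 / 2 ^ ramified b m) := by
        rw [mul_one_div]
        rfl
      rw [h2]
      refine h1.congr fun X => ?_
      unfold num
      rw [hcl, hjs]
    · have h3 := (cg_iff hb Γ).1 hΓ
      exact hC ((comp_iff hb).2 (Pool.Agent.H691.MJ.cmb_of_CR hA h3 ((joint_iff hb h3).1 hJ)))
    · obtain ⟨F, i1, i2, i3, θ, h1, h2⟩ := Pool.Agent.H691.MJ.ex_F
        (fun i => ((e (b i) : 𝓞 K) : K)) m (fun i => by
          rcases hb.index i with h | h <;> rw [h] <;> norm_num)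
      exact ⟨F, i1, i2, i3, θ, h1, h2⟩
  · obtain ⟨q, hq⟩ := Pool.Agent.H691.MJ.ex_In n
    have hA := hq.ad (kk m)
    have hb : Admissible (Pool.Agent.H691.MJ.bq q) m :=
      ⟨hm, hA.four, fun i hi => hA.nm i (by unfold kk; simp [hi]), hA.ind⟩
    refine ⟨_, hb, (comp_iff hb).2 (hq.cmb _), ?_⟩
    rw [ram_eq hb]
    exact hq.rb _

end Pool.Agent.Results.MP_1a91b9_nt.EveryExponentFourGaussian
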