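import Mathlib
import Pool.Agent.Run7.h707.TF.FinL

/-!
# The rank conjecture over EVERY fixed field `F = K(∛b_1, …, ∛b_r)`, `K = ℚ(√-3)`: the exact proportion
# of all the curves `y² + a y = x³`

`K` is the field of the third roots of unity, `r ≥ 0`, and `b_1, …, b_r` are any fixed cube-free elements of
`𝓞 K` that are congruent to third roots of unity modulo `3` (every element prime to `3` is such an element
times a cube; units are allowed) and independent modulo cubes, `F = K(∛b_1, …, ∛b_r)`, a field of degree
`3^r` over `K`.  So `F` is any abelian extension of `K` with a group of exponent `3` that is generated by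
cube roots of elements prime to `3`; it may be ramified at `3`.  For instance `F = ℚ(ζ_9)` or
`F = ℚ(√-3, ∛2)`.

Let `N` be the number of the `ν ∈ (ℤ/3)^r` such that `b^ν = ∏ b_i^{ν_i}` is `1` modulo `3` with a norm that
is `1` modulo `9`, and `κ = 1 - 3^r / (9 N)`.  (`3^r / N ∈ {1, 3, 9}` is the ramification index of `F / K` at
`√-3`.  If it is `9` then `κ = 0`, in all the other cases `κ ≥ 2 / 3`.  This interpretation is not
formalized.)

Let `a` run through ALL the cube-free elements of `𝓞 K` that are congruent to third roots of unity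
modulo `3`, and let `E_a : y² + a y = x³`; these are all the cubic twists of `y² + y = x³` by elements
prime to `3`.  The family consists of the `a` such that none of the `a b^ν` is exceptional (a unit times a
cube, or `1` modulo `3` with a norm that is `1` modulo `9`).

* The family has exactly the density `κ` among all the `a`.
* For all the `a` of the family `L(E_a / F, s)` has an entire continuation.
* The `a` of the family such that all the groups `E_{a b^ν}(K)` are finite and all the groups
  `Ш(E_{a b^ν} / K)[3^∞]` are trivial have, among ALL the `a`, exactly the density `κ c₉^(3^r)`,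
  `c₉ = ∏_{i ≥ 0} (1 - 3^{-(2 i + 1)}) > 0.639`, as if the `3^r` curves were independent.  For `r = 1` this is
  always more than `0.17`.
* For all of these `a` the rank part of the conjecture holds for `E_a` over `F`: `L(E_a / F, 1) ≠ 0` and
  `E_a(F)` is finite; moreover `Ш(E_a / F)[3^∞]` is killed by `3^r`.

So over every field `F` of this type (of arbitrarily large degree) with ramification index less than `9`
at `√-3` the rank conjecture holds for a positive proportion of all the cubic twists.  In my file
`MP_cd906c_nt/RadicalExtensionsAllTwists` the field varies together with the curve, and nothing is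
proved there for any single field.

`L(E_a / F, s)` is Mathlib's `L`-series of a Weierstrass curve over a number field, with the Euler
factors of the minimal models at all the places of `F`.

Proof: see the headers of the files `Pool/Agent/Run7/h707/{TC,TD,TE,TF}/*.lean`.  `TF`: the joint law of
the `3`-Selmer groups of the twists by a system of monomials in several free and several fixed
elements (the new point is the linear algebra of the symbol matrices with fixed vertices: the large
sieve makes the rows of the free primes equidistributed, and the rows of the fixed primes are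
controlled by the reciprocity law, if the free part is not degenerate; the products of two twists that
do not depend on the free elements are separated by the fixed ones, because they are not cubes);
`TE`: the `L`-functions and the descent over the towers.  The criterion for the nonvanishing of
`L(E_δ / K, 1)`, the descent of the points and of `Ш` and the large sieve are the joint work of the
seats named in the headers of the imported files.
-/

set_option autoImplicit false

namespace Pool.Agent.Results.MP_1a91b9_nt.EveryRadicalField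

open NumberField WeierstrassCurve
open Pool.Agent.TH841.NF.D (Sha)
open scoped Classical

/-- The curve `E_δ : y² + δ y = x³`. -/
def curve {F : Type} [Field F] (δ : F) : WeierstrassCurve F := ⟨0, 0, δ, 0, 0⟩

variable {K : Type} [Field K] [NumberField K]

/-- `b^ν = ∏ b i ^ ν i`, the exponents in `{0, 1, 2}`. -/
noncomputable def power {r : ℕ} (b : Fin r → 𝓞 K) (ν : Fin r → ZMod 3) : 𝓞 K :=
  ∏ i, b i ^ (ν i).val

/-- The `b i` are independent modulo cubes: no `b^ν`, `ν ≠ 0`, is a cube. -/
def Independent {r : ℕ} (b : Fin r → 𝓞 K) : Prop :=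
  ∀ ν : Fin r → ZMod 3, ν ≠ 0 → ∀ y : 𝓞 K, y ^ 3 ≠ power b ν

/-- `F` is generated over `K` by the cube roots `θ i` of the elements `b i`. -/
def IsRadical {r : ℕ} (b : Fin r → 𝓞 K) (F : Type) [Field F] [Algebra K F] (θ : Fin r → F) : Prop :=
  (∀ i, θ i ^ 3 = algebraMap K F (b i)) ∧
    ∀ S : Subfield F, (∀ x : K, algebraMap K F x ∈ S) → (∀ i, θ i ∈ S) → S = ⊤

/-- `a` is cube-free and congruent to a third root of unity modulo `3`. -/
def Admissible (a : 𝓞 K) : Prop :=
  (∀ x : 𝓞 K, x ^ 3 ∣ a → IsUnit x) ∧ ∃ ω : 𝓞 K, ω ^ 3 = 1 ∧ (3 : 𝓞 K) ∣ a - ω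

/-- `δ` is a unit times a cube, or `1` modulo `3` with a norm that is `1` modulo `9`. -/
def Exceptional (δ : 𝓞 K) : Prop :=
  (∃ u x : 𝓞 K, IsUnit u ∧ δ = u * x ^ 3) ∨
    ((3 : 𝓞 K) ∣ δ - 1 ∧ (9 : ℤ) ∣ Algebra.norm ℤ δ - 1)

/-- The number of the `ν` such that `b^ν` is `1` modulo `3` with a norm that is `1` modulo `9`. -/
noncomputable def unramified {r : ℕ} (b : Fin r → 𝓞 K) : ℕ :=
  {ν : Fin r → ZMod 3 | (3 : 𝓞 K) ∣ power b ν - 1 ∧ (9 : ℤ) ∣ Algebra.norm ℤ (power b ν) - 1}.ncard

/-- The density of the family: `1 - 3^r / (9 N)`. -/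
noncomputable def kappa {r : ℕ} (b : Fin r → 𝓞 K) : ℝ := 1 - 3 ^ r / (9 * unramified b)

/-- No `a b^ν` is exceptional. -/
def InFamily {r : ℕ} (b : Fin r → 𝓞 K) (a : 𝓞 K) : Prop :=
  ∀ ν : Fin r → ZMod 3, ¬ Exceptional (a * power b ν)

/-- `E_δ(K)` is finite and the `3`-primary part of `Ш(E_δ / K)` is trivial. -/
def FiniteAndTrivial (δ : 𝓞 K) : Prop :=
  Finite (curve (δ : K)).toAffine.Point ∧ ∀ (n : ℕ) (x : Sha (curve (δ : K))), 3 ^ n • x = 0 → x = 0

/-- All the `E_{a b^ν}(K)` are finite and all the `Ш(E_{a b^ν} / K)[3^∞]` are trivial. -/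
def AllTrivial {r : ℕ} (b : Fin r → 𝓞 K) (a : 𝓞 K) : Prop :=
  ∀ ν : Fin r → ZMod 3, FiniteAndTrivial (a * power b ν)

/-- The number of the admissible `a` of norm at most `X` with the property `P`. -/
noncomputable def number (X : ℕ) (P : 𝓞 K → Prop) : ℝ :=
  ({a : 𝓞 K | (Algebra.norm ℤ a ≤ X ∧ Admissible a) ∧ P a}.ncard : ℝ)

/-- The property `P` has the density `d` among all the admissible `a`. -/
def HasDensity (P : 𝓞 K → Prop) (d : ℝ) : Prop :=
  Filter.Tendsto (fun X : ℕ => number X P / number X (fun _ : 𝓞 K => True)) Filter.atTop (nhds d)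

/-- `Λ` is entire and equal to `L(E_a / F, s)` for `Re s > 3 / 2`. -/
def Continues (F : Type) [Field F] [NumberField F] [Algebra K F] (a : 𝓞 K) (Λ : ℂ → ℂ) : Prop :=
  Differentiable ℂ Λ ∧ ∀ s : ℂ, 3 / 2 < s.re → Λ s = (curve (algebraMap K F a)).LSeries s

/-- The order of vanishing of `Λ` at `1` is the rank of `E_a(F)`; moreover both are zero: `Λ 1 ≠ 0` and
`E_a(F)` is finite. -/
def RankFormula (F : Type) [Field F] [NumberField F] [Algebra K F] (a : 𝓞 K) (Λ : ℂ → ℂ) : Prop :=
  analyticOrderAt Λ 1 = (Module.finrank ℤ (curve (algebraMap K F a)).toAffine.Point : ℕ∞) ∧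
    Λ 1 ≠ 0 ∧ Finite (curve (algebraMap K F a)).toAffine.Point

/-- The `3`-primary part of `Ш(E_a / F)` is killed by `3^r`. -/
def ShaKilled (F : Type) [Field F] [NumberField F] [Algebra K F] (r : ℕ) (a : 𝓞 K) : Prop :=
  ∀ (n : ℕ) (x : Sha (curve (algebraMap K F a))), 3 ^ n • x = 0 → 3 ^ r • x = 0

/-- **Main theorem.** -/
theorem result (K : Type) [Field K] [NumberField K] [IsCyclotomicExtension {3} ℚ K] :
    (0.639 : ℝ) < ∏' i : ℕ, (1 - (1 / 3 : ℝ) ^ (2 * i + 1)) ∧
    (∃ C : ℝ, 0 < C ∧ ∃ X₀ : ℕ, ∀ X : ℕ, X₀ ≤ X → C * (X : ℝ) ≤ number X (fun _ : 𝓞 K => True)) ∧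
    ∀ (r : ℕ) (b : Fin r → 𝓞 K), (∀ i, Admissible (b i)) → Independent b →
      (3 ^ r < 9 * unramified b → 0 < kappa b) ∧
      (r = 1 → 2 / 3 ≤ kappa b) ∧
      HasDensity (InFamily b) (kappa b) ∧
      HasDensity (fun a : 𝓞 K => InFamily b a ∧ AllTrivial b a)
        (kappa b * (∏' i : ℕ, (1 - (1 / 3 : ℝ) ^ (2 * i + 1))) ^ 3 ^ r) ∧
      (∃ (F : Type) (_ : Field F) (_ : NumberField F) (_ : Algebra K F) (θ : Fin r → F),
        IsRadical b F θ) ∧
      ∀ (F : Type) [Field F] [NumberField F] [Algebra K F] (θ : Fin r → F), IsRadical b F θ →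
        Module.finrank K F = 3 ^ r ∧
        ∀ a : 𝓞 K, Admissible a → InFamily b a → ∃ Λ : ℂ → ℂ, Continues F a Λ ∧
          (AllTrivial b a → RankFormula F a Λ ∧ ShaKilled F r a) := by
  have e : ∀ X : ℕ, number X (fun _ : 𝓞 K => True) =
      ({a : 𝓞 K | Algebra.norm ℤ a ≤ X ∧ Admissible a}.ncard : ℝ) := fun X => by
    unfold number
    simp only [and_true]
  have h00 := Run7.h707.TF.finF K (r := 0) (d := fun i => i.elim0) (fun i => i.elim0)
    (fun ν hν => absurd (Subsingleton.elim ν 0) hν)
  refine ⟨Pool.Agent.XLK.t_C9.2.2.2.1, ?_, fun r b hb hind => ?_⟩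
  · simp only [e]
    exact h00.1
  · obtain ⟨h1, h2, h3, h4⟩ := Run7.h707.TF.finF K (d := b) hb hind
    have hpos : 1 ≤ unramified b := by
      unfold unramified
      rw [Nat.one_le_iff_ne_zero, ← Nat.pos_iff_ne_zero, Set.ncard_pos (Set.toFinite _)]
      have h : power b 0 = 1 := by
        unfold power
        simp
      exact ⟨0, by rw [Set.mem_ofPred_eq, h]; simp⟩
    have hposR : (1 : ℝ) ≤ (unramified b : ℝ) := by exact_mod_cast hpos
    obtain ⟨F, i1, i2, i3, θ, hθ⟩ := Run7.h707.TE.ex_F (fun i => (b i : K))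
    refine ⟨fun h => ?_, fun hr => ?_, ?_, ?_, ⟨F, i1, i2, i3, θ, hθ⟩, fun F _ _ _ θ hθ => ?_⟩
    · unfold kappa
      have h' : (3 : ℝ) ^ r < 9 * (unramified b : ℝ) := by exact_mod_cast h
      rw [sub_pos, div_lt_one (by positivity)]
      exact h'
    · unfold kappa
      subst hr
      have : (3 : ℝ) ^ 1 / (9 * (unramified b : ℝ)) ≤ 1 / 3 := by
        rw [div_le_div_iff₀ (by positivity) (by norm_num)]
        linarith
      linarith
    · unfold HasDensity
      simp only [e]
      exact h2
    · unfold HasDensity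
      simp only [e]
      exact h3
    · refine ⟨?_, fun a hA hF => ?_⟩
      · obtain ⟨⟨j, hj⟩, -⟩ := Pool.Agent.Y455.CTK.jex K
        exact Run7.h707.TF.deg_C j hb hind F θ hθ.1 hθ.2
      · obtain ⟨hd, Λ, h5, h6, h7⟩ := h4 a hA hF F θ hθ.1 hθ.2
        refine ⟨Λ, ⟨h5, h6⟩, fun hT => ?_⟩
        obtain ⟨h8, h9, h10⟩ := h7 hT
        refine ⟨⟨?_, h8, h9⟩, h10⟩
        have h11 : analyticOrderAt Λ 1 = 0 := analyticOrderAt_eq_zero.2 (Or.inr h8)
        have h12 : Module.finrank ℤ (curve (algebraMap K F a)).toAffine.Point = 0 := by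
          have hfin : Finite (curve (algebraMap K F a)).toAffine.Point := h9
          apply Module.finrank_eq_zero_of_rank_eq_zero
          rw [rank_eq_zero_iff]
          intro x
          refine ⟨(Nat.card (curve (algebraMap K F a)).toAffine.Point : ℤ), ?_, ?_⟩
          · have : 0 < Nat.card (curve (algebraMap K F a)).toAffine.Point := Nat.card_pos
            exact_mod_cast this.ne'
          · rw [natCast_zsmul]
            exact card_nsmul_eq_zero'
        rw [h11, h12]
        rfl

end Pool.Agent.Results.MP_1a91b9_nt.EveryRadicalField
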