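import Pool.Agent.Run7.h89.HB.Pat
import Pool.Agent.Run7.h424.N15.Crit
import Pool.Agent.N873.F15.Dn
import Pool.Agent.Run7.h238.XK.Rkq

/-!
# The conjecture of Birch and Swinnerton-Dyer over real multiquadratic fields for the twists of `X_0(15)`:
# exact proportions and independence

For `n` squarefree, `n ≡ 23` or `47` modulo `60`, let `E_n` be the quadratic twist by `-n` of the curve
`X_0(15)` (no complex multiplication), isomorphic to `y² = x (x + 9 n)(x + 25 n)`. A multiplier is a
squarefree `m` congruent to `1` or `49` modulo `60`. `S` is ANY finite set of multipliers and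
`F = ℚ(√m : m ∈ S)`, a totally real field of degree `2^k`, `k` arbitrary.

* `n` is `F`-good if for each squarefree `m ≥ 1` with `√m ∈ F` the squarefree part of `m n` satisfies the
  criterion: it is not the product of two numbers `b, c > 1` such that `b` is a square modulo the primes
  dividing `c` and `c` is a square modulo the primes dividing `b`.
* If `n` is `F`-good, then the conjecture (Q1) holds for `E_n` over `F`: the L-series of `E_n` over `F`, with
  all its Euler factors, extends to an entire function whose order of vanishing at `s = 1` is the rank of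
  `E_n(F)`, both zero. Moreover `E_n(F)` is finite and `2^#S` kills the 2-primary part of `Ш(E_n/F)`.
* The proportion of the `F`-good numbers is exactly `η^[F : ℚ]`, `η = ∏_{i ≥ 1} (1 - 2^{-i}) = 0.2888...`, a
  positive proportion of all the integers `n`.
* **Independence.** Let `A` be a finite set of multipliers which are pairwise different modulo the squares
  of `F`, and `T` a subset. For exactly the proportion `q^#T (1 - q)^(#A - #T)`, `q = η^[F : ℚ]`, of the `n` of the
  class the squarefree part of `a n` is `F`-good for the `a` in `T` and for no other `a` in `A`. So for any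
  number of twists of `E_n`, pairwise not isogenous over `F`, the conjecture over `F` holds simultaneously
  for a positive proportion of the class.

The proof (files of this project): the complete 2-descent and the central values of the twists of `X_0(15)`
over `ℚ` (project P15: `Run7/h424/DC`, `Run7/h555/P15`, `Run7/h209/P15` and others), the joint law for finitely
many multipliers (project JL: `Run7/h238/J`, `Run7/h424/J`, `Run7/h289/J` and others), the places and Euler
factors over `F` and the points over `F` (project NF15: `Run7/h428/NF`, `Run7/h428/X15`, `Run7/h741/NF`,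
`Run7/h483/NF`, `Run7/h921/NF`), and the Tate-Shafarevich group over `F` from those of the twists over `ℚ`
(`Run7/h424/XK/Cmp`, `Run7/h89/HB`). The file `MP_6e2fc3_nt/TwistsX15RealFields` states the Bloch–Kato form.
-/

set_option autoImplicit false

open NumberField IsDedekindDomain WeierstrassCurve Filter Topology

namespace Pool.Agent.Results.MP_1a91b9_nt.RealMultiquadraticX15

open Pool.Agent.TH841.NF.D (Sha)
open Pool.Agent.Y682 (MP)

/-- `n` is squarefree and `n ≡ 23` or `47` modulo `60` -/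
def Class (n : ℕ) : Prop := Squarefree n ∧ (n % 60 = 23 ∨ n % 60 = 47)

/-- The multipliers. -/
def Mult (m : ℕ) : Prop := Squarefree m ∧ (m % 60 = 1 ∨ m % 60 = 49)

/-- The squarefree part of the product of two squarefree numbers. -/
def sqf (a n : ℕ) : ℕ := a * n / Nat.gcd a n ^ 2

/-- The field `ℚ(√m : m ∈ S)`. -/
noncomputable def field (S : Finset ℕ) : IntermediateField ℚ ℂ :=
  IntermediateField.adjoin ℚ {z : ℂ | ∃ m ∈ S, z ^ 2 = (m : ℂ)}

noncomputable instance numField (S : Finset ℕ) : NumberField (field S) :=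
  Run7.h428.X15.numField S

/-- The curve `y² + x y + y = x³ - ((5 n + 1)/4) x² - ((19 n² + 1)/2) x + (39 n³ - 1)/4` (for `n` in the class
the coefficients are integers), the quadratic twist by `-n` of `X_0(15)`. -/
def C (n : ℕ) : WeierstrassCurve ℤ :=
  ⟨1, -((5 * n + 1) / 4), 1, -((19 * n ^ 2 + 1) / 2), (39 * n ^ 3 - 1) / 4⟩

/-- The curve `E_n` over the field `F`. -/
abbrev E (F : Type) [Field F] (n : ℕ) : WeierstrassCurve F := (C n).map (Int.castRingHom F)

/-- There is no factorization `n = b c`, `b, c > 1`, such that `b` is a square modulo every prime divisor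
of `c` and `c` is a square modulo every prime divisor of `b`. -/
def Criterion (n : ℕ) : Prop := ∀ b c : ℕ, b * c = n →
  (∀ p : ℕ, p.Prime → p ∣ c → IsSquare (b : ZMod p)) →
  (∀ p : ℕ, p.Prime → p ∣ b → IsSquare (c : ZMod p)) → b = 1 ∨ c = 1

/-- `n` is `F`-good: the squarefree part of `m n` satisfies the criterion, for each squarefree `m` with
a square root in `F`. -/
def Good (S : Finset ℕ) (n : ℕ) : Prop :=
  ∀ m : ℕ, Squarefree m → (∃ z ∈ field S, z ^ 2 = (m : ℂ)) → Criterion (sqf m n)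

/-- **The conjecture (Q1) for `E_n` over `F`, with rank zero**: the L-series of `E_n` over `F` (that of
Mathlib, with all the Euler factors) has an entire continuation, its order of vanishing at `s = 1` is the
rank of `E_n(F)`, and this group is finite. -/
def RankBSD (S : Finset ℕ) (n : ℕ) : Prop :=
  (∃ Λ : ℂ → ℂ, Differentiable ℂ Λ ∧ (∀ s : ℂ, 2 < s.re → Λ s = (E (field S) n).LSeries s) ∧
    analyticOrderAt Λ 1 = (Module.finrank ℤ (MP (E (field S) n)) : ℕ∞)) ∧
  Finite (E (field S) n).toAffine.Point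

/-- the number of the `n ≤ X` in the class with the property `Q` -/
noncomputable def num (Q : ℕ → Prop) (X : ℕ) : ℕ := Nat.card {n : ℕ // n ≤ X ∧ Class n ∧ Q n}

/-- the constant `0.2888...` -/
noncomputable def η : ℝ := ∏' i : ℕ, (1 - (1 / 2 : ℝ) ^ (i + 1))

section proof

open _root_.Run7.h428.NF (EF)
open _root_.Run7.h428.Kum (fld)
open _root_.Run7.h428.X15 (GdS)
open Pool.Agent.N969.P15 (Qc)
open Pool.Agent.Run7.h238.J (tw)

theorem C_eq {n : ℕ} (h : Class n) : C n = Run7.h555.P15.WT (-(n : ℤ)) := by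
  have h4 : (n : ℤ) % 4 = 3 := by
    have := h.2
    omega
  obtain ⟨k, hk⟩ : ∃ k : ℤ, (n : ℤ) = 4 * k + 3 := ⟨n / 4, by omega⟩
  unfold C Run7.h555.P15.WT
  rw [hk]
  have e1 : -((5 * (4 * k + 3) + 1) / 4 : ℤ) = (5 * -(4 * k + 3) - 1) / 4 := by omega
  have e2 : -((19 * (4 * k + 3) ^ 2 + 1) / 2 : ℤ) = -((19 * (-(4 * k + 3)) ^ 2 + 1) / 2) := by
    rw [neg_sq]
  have e3 : ((39 * (4 * k + 3) ^ 3 - 1) / 4 : ℤ) = -((39 * (-(4 * k + 3)) ^ 3 + 1) / 4) := by
    have h1 : (39 * (4 * k + 3) ^ 3 - 1 : ℤ) =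
        4 * (39 * (16 * k ^ 3 + 36 * k ^ 2 + 27 * k) + 263) := by ring
    have h2 : (39 * (-(4 * k + 3)) ^ 3 + 1 : ℤ) =
        4 * -(39 * (16 * k ^ 3 + 36 * k ^ 2 + 27 * k) + 263) := by ring
    rw [h1, h2, Int.mul_ediv_cancel_left _ (by norm_num), Int.mul_ediv_cancel_left _ (by norm_num),
      neg_neg]
  rw [e1, e2, e3]

theorem E_eq {n : ℕ} (h : Class n) (F : Type) [Field F] : E F n = EF F (-(n : ℤ)) := by
  show (C n).map (Int.castRingHom F) = (Run7.h555.P15.WT (-(n : ℤ))).map (Int.castRingHom F)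
  rw [C_eq h]

theorem field_eq (S : Finset ℕ) : field S = fld (S : Set ℕ) := rfl

theorem cls_sqf {a n : ℕ} (ha : Mult a) (hn : Class n) : Class (sqf a n) :=
  Pool.Agent.Run7.h89.HB.cls_tw ha hn

theorem good_iff {S : Finset ℕ} (hS : ∀ m ∈ S, Mult m) {n : ℕ} (hn : Class n) :
    Good S n ↔ GdS (fld (S : Set ℕ)) n := by
  refine forall_congr' fun m => forall_congr' fun hm => forall_congr' fun hz => ?_
  have hmu : Mult m := Run7.h428.X15.mu_of_sqrt (S := (S : Set ℕ)) (fun a ha => hS a ha) hm hz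
  exact Run7.h424.N15.crit_iff (cls_sqf hmu hn).1

theorem formula {S : Finset ℕ} (hS : ∀ m ∈ S, Mult m) {n : ℕ} (hn : Class n) (hg : Good S n) :
    RankBSD S n ∧
      ∀ (k : ℕ) (x : Sha (E (field S) n)), 2 ^ k • x = 0 → 2 ^ S.card • x = 0 := by
  have hg' := (good_iff hS hn).1 hg
  unfold RankBSD
  rw [E_eq hn (field S)]
  obtain ⟨⟨Λ, h1, h2, h3⟩, h4⟩ := Run7.h428.X15.zero_S hS hn hg'
  refine ⟨⟨⟨Λ, h1, h2, ?_⟩, h4⟩, Pool.Agent.Run7.h89.HB.sha_F hS hn hg'⟩
  have hf : Finite (MP (EF (field S) (-(n : ℤ)))) := h4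
  rw [Run7.h238.XK.finrank_fin, Nat.cast_zero, (h1.analyticAt 1).analyticOrderAt_eq_zero]
  exact h3

theorem descent {n : ℕ} (hn : Class n) :
    (Finite (E ℚ n).toAffine.Point ∧ ∀ (k : ℕ) (x : Sha (E ℚ n)), 2 ^ k • x = 0 → x = 0) ↔
      Criterion n := by
  classical
  unfold Criterion
  rw [Run7.h424.N15.crit_iff hn.1, E_eq hn ℚ]
  have h60 := hn.2
  have h4 : (-(n : ℤ)) % 4 = 1 := by omega
  have hvr := Run7.h921.NF.vr (F := ℚ) h4
  have hD := Run7.h428.X15.EF_ne hn ℚ
  have e : Run7.h921.NF.cv n ℚ = ⟨0, ((34 * (n : ℤ) : ℤ) : ℚ), 0, ((225 * (n : ℤ) ^ 2 : ℤ) : ℚ), 0⟩ := by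
    unfold Run7.h921.NF.cv
    push_cast
    rfl
  rw [← Run7.h424.DC.iffF hn.1 hn.2 e]
  have f := (hvr.equiv hD).toEquiv
  refine and_congr ⟨fun _ => Finite.of_equiv _ f, fun _ => Finite.of_equiv _ f.symm⟩ ?_
  refine forall_congr' fun k => ?_
  have h1 := Pool.Agent.Run7.h89.HB.sha_iso hvr hD (a := 2 ^ k) (b := 1)
  simpa only [one_smul] using h1

theorem num_eq {Q Q' : ℕ → Prop} (h : ∀ n, Class n → (Q n ↔ Q' n)) (X : ℕ) :
    num Q X = Run7.h428.X15.num Q' X := by
  classical
  unfold num Run7.h428.X15.num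
  refine Nat.subtype_card _ fun n => ?_
  rw [Finset.mem_filter, Finset.mem_Icc]
  constructor
  · rintro ⟨⟨-, h2⟩, h3, h5⟩
    have hc : Class n := h3
    exact ⟨h2, hc, (h n hc).2 h5⟩
  · rintro ⟨h2, hc, h5⟩
    exact ⟨⟨Nat.one_le_iff_ne_zero.2 hc.1.ne_zero, h2⟩, hc, (h n hc).1 h5⟩

theorem gen (S : Finset ℕ) : ∀ K : Subfield (field S),
    (∀ d ∈ S, ∀ z : field S, z ^ 2 = (d : field S) → z ∈ K) → K = ⊤ := Run7.h428.X15.gen2 S

theorem real {S : Finset ℕ} : IsTotallyReal (field S) where
  isReal v := by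
    rw [InfinitePlace.isReal_iff, ComplexEmbedding.isReal_iff]
    set φ : field S →+* ℂ := v.embedding with hφ
    set K : Subfield (field S) := (ComplexEmbedding.conjugate φ).eqLocusField φ with hK
    have h1 : K = ⊤ := by
      refine gen S K fun d _ z hz => ?_
      show (starRingEnd ℂ) (φ z) = φ z
      have h2 : φ z ^ 2 = ((d : ℝ) : ℂ) := by
        rw [← map_pow]
        rw [hz, map_natCast]
        push_cast
        rfl
      have h3 : φ z ^ 2 = (((√(d : ℝ) : ℝ)) : ℂ) ^ 2 := by
        rw [h2, ← Complex.ofReal_pow, Real.sq_sqrt (Nat.cast_nonneg d)]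
      rcases sq_eq_sq_iff_eq_or_eq_neg.1 h3 with h4 | h4
      · rw [h4, Complex.conj_ofReal]
      · rw [h4, map_neg, Complex.conj_ofReal]
    ext z
    have h2 : z ∈ K := by
      rw [h1]
      trivial
    exact h2

open Pool.Agent.N873.F15.Dn (sf ep sf_dens)

theorem ep60 : ep 60 = 16 / 25 := by
  unfold ep
  have : (60 : ℕ).primeFactors = {2, 3, 5} := by
    have e : (60 : ℕ) = 2 ^ 2 * (3 * 5) := by norm_num
    rw [e, Nat.primeFactors_mul (by norm_num) (by norm_num), Nat.primeFactors_mul (by norm_num)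
      (by norm_num), Nat.primeFactors_prime_pow (by norm_num) Nat.prime_two,
      Nat.Prime.primeFactors Nat.prime_three, Nat.Prime.primeFactors (by norm_num)]
    rfl
  rw [this, Finset.prod_insert (by decide), Finset.prod_insert (by decide), Finset.prod_singleton]
  norm_num

open Classical in
theorem all_eq (X : ℕ) : num (fun _ => True) X = sf 60 23 X + sf 60 47 X := by
  rw [num_eq (Q' := fun _ => True) (fun _ _ => Iff.rfl) X]
  unfold sf Run7.h428.X15.num
  rw [← Finset.card_union_of_disjoint]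
  · congr 1
    ext n
    simp only [Finset.mem_filter, Finset.mem_union, Finset.mem_Icc, and_true]
    show _ ∧ (Squarefree n ∧ (n % 60 = 23 ∨ n % 60 = 47)) ↔ _
    tauto
  · rw [Finset.disjoint_left]
    intro n h1 h2
    simp only [Finset.mem_filter] at h1 h2
    omega

theorem lim_all : Tendsto (fun X : ℕ => (num (fun _ => True) X : ℝ) / X) atTop
    (𝓝 (5 / (16 * Real.pi ^ 2))) := by
  have h1 := sf_dens (N := 60) (r := 23) (by norm_num) (by norm_num) (by norm_num)
  have h2 := sf_dens (N := 60) (r := 47) (by norm_num) (by norm_num) (by norm_num)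
  have h4 := h1.add h2
  have e : (6 / Real.pi ^ 2 / ep 60 / (60 : ℕ) + 6 / Real.pi ^ 2 / ep 60 / (60 : ℕ) : ℝ) =
      5 / (16 * Real.pi ^ 2) := by
    rw [ep60]
    have : Real.pi ≠ 0 := Real.pi_ne_zero
    push_cast
    field_simp
    norm_num
  rw [e] at h4
  refine h4.congr fun X => ?_
  rw [all_eq]
  push_cast
  ring

end proof

/-- **The conjecture of Birch and Swinnerton-Dyer over real multiquadratic fields for the twists of
`X_0(15)`: exact proportions and independence.** -/
theorem result :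
    (∀ n : ℕ, Class n →
      ((Finite (E ℚ n).toAffine.Point ∧ ∀ (k : ℕ) (x : Sha (E ℚ n)), 2 ^ k • x = 0 → x = 0) ↔
        Criterion n)) ∧
    0.2887 < η ∧ η < 0.2889 ∧
    Tendsto (fun X : ℕ => (num (fun _ => True) X : ℝ) / X) atTop (𝓝 (5 / (16 * Real.pi ^ 2))) ∧
    ∀ S : Finset ℕ, (∀ m ∈ S, Mult m) →
      IsTotallyReal (field S) ∧
      (∀ n : ℕ, Class n → Good S n → RankBSD S n ∧
        ∀ (k : ℕ) (x : Sha (E (field S) n)), 2 ^ k • x = 0 → 2 ^ S.card • x = 0) ∧
      Tendsto (fun X : ℕ => (num (Good S) X : ℝ) / (num (fun _ => True) X : ℝ)) atTop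
        (𝓝 (η ^ Module.finrank ℚ (field S))) ∧
      ∀ A : Finset ℕ, (∀ a ∈ A, Mult a) →
        (∀ a ∈ A, ∀ b ∈ A, a ≠ b → ¬ ∃ z ∈ field S, z ^ 2 = ((a * b : ℕ) : ℂ)) →
        (∀ a ∈ A, ∀ n : ℕ, Class n → Class (sqf a n) ∧ sqf a n * Nat.gcd a n ^ 2 = a * n) ∧
        ∀ T ⊆ A, Tendsto (fun X : ℕ =>
          (num (fun n => ∀ a ∈ A, (Good S (sqf a n) ↔ a ∈ T)) X : ℝ) /
            (num (fun _ => True) X : ℝ)) atTop
          (𝓝 ((η ^ Module.finrank ℚ (field S)) ^ T.card *
            (1 - η ^ Module.finrank ℚ (field S)) ^ (A.card - T.card))) := by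
  refine ⟨fun n hn => ?_, Pool.Agent.N916.GB.eta_bounds.1, Pool.Agent.N916.GB.eta_bounds.2, lim_all,
    fun S hS => ⟨real, fun n hn hg => formula hS hn hg, ?_, fun A hA hsep =>
      ⟨fun a ha n hn => ⟨cls_sqf (hA a ha) hn,
        (Pool.Agent.Run7.h424.J.tw_spec (hA a ha).1 hn.1).2.2⟩, fun T hT => ?_⟩⟩⟩
  · exact descent hn
  · refine (Run7.h428.X15.prop_gd hS).congr fun X => ?_
    rw [num_eq (fun n hn => good_iff hS hn) X, num_eq (Q' := fun _ => True) (fun _ _ => Iff.rfl) X]
  · refine (Pool.Agent.Run7.h89.HB.pat hS hA hsep hT).congr fun X => ?_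
    rw [num_eq (Q := fun _ => True) (Q' := fun _ => True) (fun _ _ => Iff.rfl) X,
      num_eq (Q := fun n => ∀ a ∈ A, (Good S (sqf a n) ↔ a ∈ T)) (fun n hn =>
        forall_congr' fun a => forall_congr' fun ha =>
          iff_congr (good_iff hS (cls_sqf (hA a ha) hn)) Iff.rfl) X]
    rfl

end Pool.Agent.Results.MP_1a91b9_nt.RealMultiquadraticX15
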